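import Mathlib

/-!
# Dominating sets, the domination polynomial, average size and modes
-/

set_option autoImplicit false

namespace Pool.Agent.Work.MP_fd33cb_co

open Finset Polynomial

/-- `S` is a dominating set of `G`: every vertex lies in `S` or has a neighbour in `S`. -/
def IsDominating {V : Type*} (G : SimpleGraph V) (S : Finset V) : Prop :=
  ∀ v, v ∈ S ∨ ∃ u ∈ S, G.Adj v u

open Classical in
/-- `d_i(G)`, the number of dominating sets of `G` with exactly `i` vertices. -/
noncomputable def domCount {V : Type*} [Fintype V] (G : SimpleGraph V) (i : ℕ) : ℕ :=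
  #{S : Finset V | #S = i ∧ IsDominating G S}

/-- The domination polynomial `D(G, x) = ∑_{i = 0}^{n} d_i(G) x^i`. -/
noncomputable def domPoly {V : Type*} [Fintype V] (G : SimpleGraph V) : ℝ[X] :=
  ∑ i ∈ range (Fintype.card V + 1), C (domCount G i : ℝ) * X ^ i

/-- `avd(G) = D'(G, 1) / D(G, 1)`, the average size of a dominating set of `G`. -/
noncomputable def avd {V : Type*} [Fintype V] (G : SimpleGraph V) : ℝ :=
  (derivative (domPoly G)).eval 1 / (domPoly G).eval 1

/-- `m` is a mode of `D(G, x)`: an index `0 ≤ m ≤ n` with `d_m(G) = max_i d_i(G)`. -/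
def IsMode {V : Type*} [Fintype V] (G : SimpleGraph V) (m : ℕ) : Prop :=
  m ≤ Fintype.card V ∧ ∀ i, domCount G i ≤ domCount G m

end Pool.Agent.Work.MP_fd33cb_co
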