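import Mathlib
import Pool.Agent.Work.MP_fd33cb_co.Defs

/-!
# Hub-and-clique graphs and their domination polynomial
-/

set_option autoImplicit false

namespace Pool.Agent.Work.MP_fd33cb_co

open Finset Polynomial

/-- Basic facts on domination polynomials. -/
lemma domPoly_eq_sum {V : Type*} [Fintype V] (G : SimpleGraph V) :
    open Classical in
    domPoly G = ∑ S ∈ (univ.filter fun S : Finset V => IsDominating G S), (X : ℝ[X]) ^ #S := by
  classical
  unfold domPoly
  rw [← Finset.sum_fiberwise_of_maps_to (s := univ.filter fun S : Finset V => IsDominating G S)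
    (t := range (Fintype.card V + 1)) (g := fun S => #S)
    (f := fun S => (X : ℝ[X]) ^ #S)]
  · refine Finset.sum_congr rfl fun i _ => ?_
    rw [Finset.sum_congr rfl (g := fun _ => (X : ℝ[X]) ^ i)]
    · rw [Finset.sum_const, nsmul_eq_mul, domCount]
      congr 1
      rw [Finset.filter_filter]
      have : (univ.filter fun S : Finset V => #S = i ∧ IsDominating G S) =
          (univ.filter fun S : Finset V => IsDominating G S ∧ #S = i) := by
        ext S; simp [and_comm]
      rw [this]
      simp
    · intro S hS
      rw [(Finset.mem_filter.1 hS).2]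
  · intro S _
    rw [Finset.mem_range]
    exact Nat.lt_succ_of_le (Finset.card_le_univ S)

lemma coeff_domPoly {V : Type*} [Fintype V] (G : SimpleGraph V) (m : ℕ) :
    (domPoly G).coeff m = domCount G m := by
  classical
  unfold domPoly
  rw [Polynomial.finsetSum_coeff]
  simp only [Polynomial.coeff_C_mul, Polynomial.coeff_X_pow]
  by_cases hm : m ∈ range (Fintype.card V + 1)
  · rw [Finset.sum_eq_single m]
    · simp
    · intro b _ hb
      simp [hb.symm]
    · intro h; exact absurd hm h
  · rw [Finset.sum_eq_zero]
    · symm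
      rw [Nat.cast_eq_zero, domCount, Finset.card_eq_zero, Finset.filter_eq_empty_iff]
      rintro S _ ⟨h1, _⟩
      apply hm
      rw [Finset.mem_range, ← h1]
      exact Nat.lt_succ_of_le (Finset.card_le_univ S)
    · intro i hi
      have : i ≠ m := by rintro rfl; exact hm hi
      simp [this.symm]

variable {h r : ℕ}

/-- Vertices: the hubs (one of them, `none`, is attached to no gadget), the gadget vertices,
and isolated vertices. -/
abbrev Vtx (h t r s : ℕ) := Option (Fin h) ⊕ ((Fin t × Fin r) ⊕ Fin s)

/-- Adjacency of the hub-and-clique graph. -/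
def gAdj {t s : ℕ} (f : ℕ → Fin r → Fin h) : Vtx h t r s → Vtx h t r s → Prop
  | .inl a, .inl b => a ≠ b
  | .inl a, .inr (.inl p) => a = some (f p.1 p.2)
  | .inr (.inl p), .inl a => a = some (f p.1 p.2)
  | .inr (.inl p), .inr (.inl q) => p.1 = q.1 ∧ p.2 ≠ q.2
  | .inl _, .inr (.inr _) => False
  | .inr (.inr _), _ => False
  | .inr (.inl _), .inr (.inr _) => False

/-- The hub-and-clique graph: the hubs form a clique, each gadget `j < t` is a clique on
`r` vertices, and vertex `a` of gadget `j` is joined to the hub `f j a`. -/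
def gGraph (f : ℕ → Fin r → Fin h) (t s : ℕ) : SimpleGraph (Vtx h t r s) where
  Adj := gAdj f
  symm := ⟨by
    rintro (a | p | i) (b | q | j) hh <;> simp only [gAdj] at hh ⊢ <;>
      first
        | exact hh
        | exact Ne.symm hh
        | exact ⟨hh.1.symm, Ne.symm hh.2⟩⟩
  loopless := ⟨by
    rintro (a | p | i) hh <;> simp only [gAdj] at hh
    · exact hh rfl
    · exact hh.2 rfl⟩

/-- Gadget `j` is saturated by the set `U` of hubs. -/
def Sat (f : ℕ → Fin r → Fin h) (U : Finset (Option (Fin h))) (j : ℕ) : Prop :=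
  ∀ b, some (f j b) ∈ U

instance (f : ℕ → Fin r → Fin h) (U : Finset (Option (Fin h))) (j : ℕ) :
    Decidable (Sat f U j) := by unfold Sat; infer_instance

/-- The number of saturated gadgets. -/
def satCount (f : ℕ → Fin r → Fin h) (t : ℕ) (U : Finset (Option (Fin h))) : ℕ :=
  #((range t).filter fun j => Sat f U j)

/-- The vertex set coded by a set of hubs and sets of gadget vertices. -/
def code {t : ℕ} (s : ℕ) (U : Finset (Option (Fin h))) (Y : Fin t → Finset (Fin r)) :
    Finset (Vtx h t r s) :=
  U.disjSum ((univ.filter fun p : Fin t × Fin r => p.2 ∈ Y p.1).disjSum univ)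

lemma card_code {t s : ℕ} (U : Finset (Option (Fin h))) (Y : Fin t → Finset (Fin r)) :
    #(code s U Y) = #U + s + ∑ j, #(Y j) := by
  unfold code
  rw [Finset.card_disjSum, Finset.card_disjSum, Finset.card_univ, Fintype.card_fin]
  have : #(univ.filter fun p : Fin t × Fin r => p.2 ∈ Y p.1) = ∑ j, #(Y j) := by
    rw [Finset.card_filter, Fintype.sum_prod_type]
    refine Finset.sum_congr rfl fun j _ => ?_
    rw [← Finset.card_filter]
    congr 1
    ext a; simp
  rw [this]; ring

lemma isDominating_iff {t s : ℕ} (f : ℕ → Fin r → Fin h) (S : Finset (Vtx h t r s)) :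
    IsDominating (gGraph f t s) S ↔ ∃ U : Finset (Option (Fin h)), ∃ Y : Fin t → Finset (Fin r),
      U.Nonempty ∧ (∀ j : Fin t, (Y j).Nonempty ∨ Sat f U j) ∧ S = code s U Y := by
  classical
  constructor
  · intro hS
    refine ⟨univ.filter fun a => (Sum.inl a : Vtx h t r s) ∈ S,
      fun j => univ.filter fun b => (Sum.inr (Sum.inl (j, b)) : Vtx h t r s) ∈ S, ?_, ?_, ?_⟩
    · rcases hS (Sum.inl none) with h1 | ⟨u, hu, hadj⟩
      · exact ⟨none, by simpa using h1⟩
      · rcases u with a | p | i
        · exact ⟨a, by simpa using hu⟩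
        · simp [gGraph, gAdj] at hadj
        · simp [gGraph, gAdj] at hadj
    · intro j
      by_cases hj : (univ.filter fun b => (Sum.inr (Sum.inl (j, b)) : Vtx h t r s) ∈ S).Nonempty
      · exact Or.inl hj
      · right
        rw [Finset.not_nonempty_iff_eq_empty, Finset.filter_eq_empty_iff] at hj
        intro b
        rcases hS (Sum.inr (Sum.inl (j, b))) with h1 | ⟨u, hu, hadj⟩
        · exact absurd h1 (hj (Finset.mem_univ b))
        · rcases u with a | p | i
          · simp only [gGraph, gAdj] at hadj
            rw [Finset.mem_filter]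
            exact ⟨Finset.mem_univ _, hadj ▸ hu⟩
          · simp only [gGraph, gAdj] at hadj
            exfalso
            obtain ⟨p1, p2⟩ := p
            simp only at hadj
            obtain ⟨rfl, -⟩ := hadj
            exact hj (Finset.mem_univ p2) hu
          · simp [gGraph, gAdj] at hadj
    · ext v
      unfold code
      rcases v with a | p | i
      · simp
      · simp
      · simp only [Finset.inr_mem_disjSum, Finset.mem_univ, iff_true]
        rcases hS (Sum.inr (Sum.inr i)) with h1 | ⟨u, hu, hadj⟩
        · exact h1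
        · rcases u with a | p | i <;> simp [gGraph, gAdj] at hadj
  · rintro ⟨U, Y, ⟨a0, ha0⟩, hY, rfl⟩
    intro v
    rcases v with a | p | i
    · by_cases ha : a ∈ U
      · left; simpa [code] using ha
      · right
        refine ⟨Sum.inl a0, by simpa [code] using ha0, ?_⟩
        simp only [gGraph, gAdj]
        rintro rfl
        exact ha ha0
    · obtain ⟨j, b⟩ := p
      rcases hY j with ⟨c, hc⟩ | hsat
      · by_cases hb : c = b
        · left; subst hb; simpa [code] using hc
        · right
          refine ⟨Sum.inr (Sum.inl (j, c)), by simpa [code] using hc, ?_⟩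
          simp only [gGraph, gAdj]
          exact ⟨trivial, fun hh => hb hh.symm⟩
      · right
        refine ⟨Sum.inl (some (f j b)), by simpa [code] using hsat b, ?_⟩
        simp only [gGraph, gAdj]
    · left; simp [code]

lemma code_injective {t s : ℕ} (U U' : Finset (Option (Fin h))) (Y Y' : Fin t → Finset (Fin r))
    (heq : code s U Y = code s U' Y') : U = U' ∧ Y = Y' := by
  constructor
  · ext a
    have := congrArg (fun S => (Sum.inl a : Vtx h t r s) ∈ S) heq
    simpa [code] using this
  · funext j
    ext b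
    have := congrArg (fun S => (Sum.inr (Sum.inl (j, b)) : Vtx h t r s) ∈ S) heq
    simpa [code] using this

/-- Contribution of a set of `u` hubs saturating `a` of the `t` gadgets. -/
noncomputable def piece (r t s u a : ℕ) : ℝ[X] :=
  X ^ (u + s) * ((1 + X) ^ r) ^ a * ((1 + X) ^ r - 1) ^ (t - a)

lemma sum_all (r : ℕ) : ∑ y : Finset (Fin r), (X : ℝ[X]) ^ #y = (1 + X) ^ r := by
  have := Fintype.sum_pow_mul_eq_add_pow (Fin r) (X : ℝ[X]) 1
  simp only [one_pow, mul_one, Fintype.card_fin] at this
  rw [this, add_comm]

lemma sum_nonempty (r : ℕ) :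
    ∑ y ∈ (univ.filter fun y : Finset (Fin r) => y.Nonempty), (X : ℝ[X]) ^ #y
      = (1 + X) ^ r - 1 := by
  rw [← sum_all r, ← Finset.sum_filter_add_sum_filter_not univ (fun y : Finset (Fin r) => y.Nonempty)
    (fun y => (X : ℝ[X]) ^ #y)]
  have : (univ.filter fun y : Finset (Fin r) => ¬ y.Nonempty) = {∅} := by
    ext y; simp [Finset.not_nonempty_iff_eq_empty]
  rw [this, Finset.sum_singleton, Finset.card_empty, pow_zero]
  ring

/-- The domination polynomial of the hub-and-clique graph. -/
theorem domPoly_gGraph (f : ℕ → Fin r → Fin h) (t s : ℕ) :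
    domPoly (gGraph f t s) =
      ∑ U ∈ (univ.filter fun U : Finset (Option (Fin h)) => U.Nonempty),
        piece r t s (#U) (satCount f t U) := by
  classical
  rw [domPoly_eq_sum]
  -- gadget choices
  have key : ∀ U : Finset (Option (Fin h)),
      piece r t s (#U) (satCount f t U) =
      ∑ Y ∈ Fintype.piFinset (fun j : Fin t =>
        univ.filter fun y : Finset (Fin r) => y.Nonempty ∨ Sat f U j),
        (X : ℝ[X]) ^ #(code s U Y) := by
    intro U
    have h1 : ∀ Y : Fin t → Finset (Fin r),
        (X : ℝ[X]) ^ #(code s U Y) = X ^ (#U + s) * ∏ j, (X : ℝ[X]) ^ #(Y j) := by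
      intro Y
      rw [card_code, pow_add, Finset.prod_pow_eq_pow_sum]
    simp_rw [h1]
    rw [← Finset.mul_sum, ← Finset.prod_univ_sum (fun j : Fin t =>
        univ.filter fun y : Finset (Fin r) => y.Nonempty ∨ Sat f U j)
        (fun _ y => (X : ℝ[X]) ^ #y)]
    have h2 : ∀ j : Fin t, ∑ y ∈ (univ.filter fun y : Finset (Fin r) => y.Nonempty ∨ Sat f U j),
        (X : ℝ[X]) ^ #y = if Sat f U j then (1 + X) ^ r else (1 + X) ^ r - 1 := by
      intro j
      split_ifs with hs
      · simp only [hs, or_true, Finset.filter_true]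
        exact sum_all r
      · simp only [hs, or_false]
        exact sum_nonempty r
    simp_rw [h2]
    rw [Fin.prod_univ_eq_prod_range (fun j => if Sat f U j then ((1 + X : ℝ[X]) ^ r)
      else (1 + X) ^ r - 1) t, Finset.prod_ite, Finset.prod_const, Finset.prod_const]
    unfold piece satCount
    have h3 : #((range t).filter fun j => ¬ Sat f U j) =
        t - #((range t).filter fun j => Sat f U j) := by
      have := Finset.card_filter_add_card_filter_not (s := range t) (fun j => Sat f U j)
      rw [Finset.card_range] at this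
      omega
    rw [h3, mul_assoc]
  simp_rw [key]
  rw [Finset.sum_sigma']
  symm
  refine Finset.sum_bij (fun (p : (_ : Finset (Option (Fin h))) × (Fin t → Finset (Fin r))) _ =>
    code s p.1 p.2) ?_ ?_ ?_ ?_
  · rintro ⟨U, Y⟩ hp
    simp only [Finset.mem_sigma, Finset.mem_filter, Finset.mem_univ, true_and,
      Fintype.mem_piFinset] at hp
    rw [Finset.mem_filter]
    refine ⟨Finset.mem_univ _, (isDominating_iff f _).2 ⟨U, Y, hp.1, hp.2, rfl⟩⟩
  · rintro ⟨U, Y⟩ _ ⟨U', Y'⟩ _ heq
    obtain ⟨rfl, rfl⟩ := code_injective U U' Y Y' heq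
    rfl
  · intro S hS
    rw [Finset.mem_filter] at hS
    obtain ⟨U, Y, h1, h2, rfl⟩ := (isDominating_iff f S).1 hS.2
    refine ⟨⟨U, Y⟩, ?_, rfl⟩
    simp only [Finset.mem_sigma, Finset.mem_filter, Finset.mem_univ, true_and,
      Fintype.mem_piFinset]
    exact ⟨h1, h2⟩
  · intro p _
    rfl

end Pool.Agent.Work.MP_fd33cb_co
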