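import Mathlib
import Pool.Agent.Work.MP_fd33cb_co.Gadget

/-!
# Estimates for one piece of the domination polynomial
-/

set_option autoImplicit false

namespace Pool.Agent.Work.MP_fd33cb_co

open Finset Polynomial

lemma pow_dlog (g : ℝ[X]) (hg : g.eval 1 ≠ 0) (k : ℕ) :
    (derivative (g ^ k)).eval 1 = (g.eval 1) ^ k * (k * ((derivative g).eval 1 / g.eval 1)) := by
  cases k with
  | zero => simp
  | succ n =>
    rw [Polynomial.derivative_pow_succ]
    simp only [eval_mul, eval_pow, eval_add, eval_natCast, eval_one, map_add, map_natCast, map_one]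
    push_cast
    field_simp
    ring

/-- Nonnegative coefficients. -/
def NonnegCoeff (p : ℝ[X]) : Prop := ∀ i, 0 ≤ p.coeff i

lemma NonnegCoeff.mul {p q : ℝ[X]} (hp : NonnegCoeff p) (hq : NonnegCoeff q) :
    NonnegCoeff (p * q) := by
  intro i
  rw [Polynomial.coeff_mul]
  exact Finset.sum_nonneg fun x _ => mul_nonneg (hp _) (hq _)

lemma NonnegCoeff.one : NonnegCoeff 1 := by
  intro i
  rw [Polynomial.coeff_one]
  split_ifs <;> norm_num

lemma NonnegCoeff.pow {p : ℝ[X]} (hp : NonnegCoeff p) (n : ℕ) : NonnegCoeff (p ^ n) := by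
  induction n with
  | zero => rw [pow_zero]; exact NonnegCoeff.one
  | succ n ih => rw [pow_succ]; exact ih.mul hp

lemma NonnegCoeff.sumX {ι : Type*} (s : Finset ι) (g : ι → ℕ) :
    NonnegCoeff (∑ i ∈ s, (X : ℝ[X]) ^ g i) := by
  intro k
  rw [Polynomial.finsetSum_coeff]
  refine Finset.sum_nonneg fun x _ => ?_
  rw [Polynomial.coeff_X_pow]
  split_ifs <;> norm_num

lemma nonneg_piece (r t s u a : ℕ) : NonnegCoeff (piece r t s u a) := by
  unfold piece
  refine NonnegCoeff.mul (NonnegCoeff.mul ?_ ?_) ?_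
  · refine NonnegCoeff.pow ?_ _
    intro k
    rw [Polynomial.coeff_X]
    split_ifs <;> norm_num
  · rw [← sum_all r]
    exact (NonnegCoeff.sumX _ _).pow _
  · rw [← sum_nonempty r]
    exact (NonnegCoeff.sumX _ _).pow _

lemma coeff_le_of_nonneg {p : ℝ[X]} (hp : NonnegCoeff p) {x : ℝ} (hx : 0 < x) (m : ℕ) :
    p.coeff m * x ^ m ≤ p.eval x := by
  rw [Polynomial.eval_eq_sum_range]
  by_cases hm : m ∈ range (p.natDegree + 1)
  · exact Finset.single_le_sum (f := fun i => p.coeff i * x ^ i)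
      (fun i _ => mul_nonneg (hp i) (pow_pos hx i).le) hm
  · have : p.coeff m = 0 := by
      apply Polynomial.coeff_eq_zero_of_natDegree_lt
      rw [Finset.mem_range] at hm
      omega
    rw [this, zero_mul]
    exact Finset.sum_nonneg fun i _ => mul_nonneg (hp i) (pow_pos hx i).le

lemma eval_piece (r t s u a : ℕ) (x : ℝ) :
    (piece r t s u a).eval x = x ^ (u + s) * ((1 + x) ^ r) ^ a * ((1 + x) ^ r - 1) ^ (t - a) := by
  unfold piece
  simp

lemma derivative_piece (r t s u a : ℕ) (hr : 1 ≤ r) :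
    (derivative (piece r t s u a)).eval 1 = (piece r t s u a).eval 1 *
      ((u + s : ℕ) + a * (r / 2 : ℝ) + (t - a : ℕ) * (r * 2 ^ (r - 1) / (2 ^ r - 1) : ℝ)) := by
  have h2 : (2 : ℝ) ^ r - 1 ≠ 0 := by
    have : (2 : ℝ) ^ 1 ≤ 2 ^ r := pow_le_pow_right₀ (by norm_num) hr
    linarith
  have hA : (X : ℝ[X]).eval 1 ≠ 0 := by simp
  have hB : ((1 + X : ℝ[X]) ^ r).eval 1 ≠ 0 := by
    simp only [eval_pow, eval_add, eval_one, eval_X]
    positivity
  have hC : ((1 + X : ℝ[X]) ^ r - 1).eval 1 ≠ 0 := by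
    simp only [eval_sub, eval_pow, eval_add, eval_one, eval_X]
    norm_num
    exact h2
  have dB : (derivative ((1 + X : ℝ[X]) ^ r)).eval (1 : ℝ) = (r : ℝ) * 2 ^ (r - 1) := by
    rw [Polynomial.derivative_pow]
    simp
    left; norm_num
  have dC : (derivative ((1 + X : ℝ[X]) ^ r - 1)).eval (1 : ℝ) = (r : ℝ) * 2 ^ (r - 1) := by
    rw [Polynomial.derivative_sub, Polynomial.derivative_one, sub_zero, dB]
  have eB : ((1 + X : ℝ[X]) ^ r).eval 1 = 2 ^ r := by
    simp only [eval_pow, eval_add, eval_one, eval_X]; norm_num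
  have eC : ((1 + X : ℝ[X]) ^ r - 1).eval 1 = 2 ^ r - 1 := by
    simp only [eval_sub, eval_pow, eval_add, eval_one, eval_X]; norm_num
  unfold piece
  rw [Polynomial.derivative_mul, Polynomial.derivative_mul]
  simp only [eval_add, eval_mul]
  rw [pow_dlog _ hA, pow_dlog _ hB, pow_dlog _ hC, dB, dC]
  simp only [eval_pow, eB, eC, Polynomial.derivative_X, eval_one, eval_X, one_pow]
  have h3 : (r * 2 ^ (r - 1) / 2 ^ r : ℝ) = r / 2 := by
    obtain ⟨q, rfl⟩ : ∃ q, r = q + 1 := ⟨r - 1, by omega⟩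
    rw [Nat.add_sub_cancel, pow_succ]
    field_simp
  rw [h3]
  push_cast
  ring

/-- The excess constant. -/
noncomputable def kap (r : ℕ) : ℝ := (r / 2 : ℝ) / (2 ^ r - 1)

lemma two_pow_sub_one_pos {r : ℕ} (hr : 1 ≤ r) : (0 : ℝ) < 2 ^ r - 1 := by
  have : (2 : ℝ) ^ 1 ≤ 2 ^ r := pow_le_pow_right₀ (by norm_num) hr
  linarith

lemma eval_one_piece (r t s u a : ℕ) :
    (piece r t s u a).eval 1 = ((2 : ℝ) ^ r) ^ a * (2 ^ r - 1) ^ (t - a) := by
  rw [eval_piece, one_pow, one_mul]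
  norm_num

/-- Common part of the two exponential moment bounds. -/
lemma eval_piece_le {r t s u a : ℕ} (hr : 1 ≤ r) (ha : a ≤ t) {x y e q : ℝ} (hx : 0 < x)
    (hxy : 1 + x = 2 * y) (hy : 0 < y) (hyx : 1 ≤ (2 : ℝ) ^ r * y ^ r)
    (h1 : (2 : ℝ) ^ r * y ^ r - 1 ≤ (2 ^ r - 1) * y ^ r * Real.exp e)
    (h2 : Real.log y ≤ q) :
    (piece r t s u a).eval x ≤ (piece r t s u a).eval 1 *
      Real.exp ((u + s) * Real.log x + r * t * q + (t - a) * e) := by
  have hN := two_pow_sub_one_pos hr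
  rw [eval_one_piece, eval_piece, hxy, mul_pow]
  have hp : (0 : ℝ) < y ^ r := by positivity
  have e1 : x ^ (u + s) = Real.exp ((u + s) * Real.log x) := by
    rw [mul_comm, Real.exp_mul, Real.exp_log hx]
    have := Real.rpow_natCast x (u + s)
    rw [← this]; push_cast; rfl
  have e2 : (y ^ r) ^ t ≤ Real.exp (r * t * q) := by
    have : Real.exp (r * t * q) = ((Real.exp q) ^ r) ^ t := by
      rw [← Real.exp_nat_mul, ← Real.exp_nat_mul]; congr 1; ring
    rw [this]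
    gcongr
    rw [← Real.exp_log hy]
    exact Real.exp_le_exp.2 h2
  have e3 : Real.exp ((t - a) * e) = (Real.exp e) ^ (t - a) := by
    rw [← Real.exp_nat_mul, Nat.cast_sub ha]
  rw [Real.exp_add, Real.exp_add, e3, e1]
  have e4 : ((2 : ℝ) ^ r * y ^ r - 1) ^ (t - a) ≤ ((2 ^ r - 1) * y ^ r * Real.exp e) ^ (t - a) :=
    pow_le_pow_left₀ (by linarith) h1 _
  have e5 : (y ^ r) ^ a * (y ^ r) ^ (t - a) = (y ^ r) ^ t := by
    rw [← pow_add]; congr 1; omega
  calc Real.exp ((u + s) * Real.log x) * (2 ^ r * y ^ r) ^ a * (2 ^ r * y ^ r - 1) ^ (t - a)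
      ≤ Real.exp ((u + s) * Real.log x) * (2 ^ r * y ^ r) ^ a *
        ((2 ^ r - 1) * y ^ r * Real.exp e) ^ (t - a) := by gcongr
    _ = ((2 : ℝ) ^ r) ^ a * (2 ^ r - 1) ^ (t - a) * (Real.exp ((u + s) * Real.log x) *
        ((y ^ r) ^ a * (y ^ r) ^ (t - a)) * Real.exp e ^ (t - a)) := by
        rw [mul_pow, mul_pow, mul_pow]; ring
    _ ≤ ((2 : ℝ) ^ r) ^ a * (2 ^ r - 1) ^ (t - a) * (Real.exp ((u + s) * Real.log x) *
        Real.exp (r * t * q) * Real.exp e ^ (t - a)) := by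
        rw [e5]; gcongr

lemma coeff_piece_upper {r t s u a m : ℕ} (hr : 1 ≤ r) (ha : a ≤ t) {τ : ℝ} (h0 : 0 < τ)
    (h1 : τ ≤ 1) :
    (piece r t s u a).coeff m ≤ (piece r t s u a).eval 1 *
      Real.exp (-((m - s - r * t / 2 - u) * Real.log (1 + τ)) + r * t * (τ ^ 2 / 8) +
        kap r * τ * (t - a)) := by
  have hN := two_pow_sub_one_pos hr
  have hx : (0 : ℝ) < 1 + τ := by linarith
  have hy : (0 : ℝ) < 1 + τ / 2 := by linarith
  have hy1 : (1 : ℝ) ≤ 1 + τ / 2 := by linarith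
  have hQ1 : (1 : ℝ) ≤ (1 + τ / 2) ^ r := one_le_pow₀ hy1
  have h2r : (1 : ℝ) ≤ 2 ^ r := one_le_pow₀ (by norm_num)
  have hbern : (1 + τ / 2) ^ r * (1 - r * τ / 2) ≤ 1 := by
    have b1 : 1 + (r : ℝ) * (-(τ / 2)) ≤ (1 + -(τ / 2)) ^ r :=
      one_add_mul_le_pow (by linarith) r
    have b2 : (1 + τ / 2) ^ r * (1 + -(τ / 2)) ^ r ≤ 1 := by
      rw [← mul_pow]
      apply pow_le_one₀
      · nlinarith
      · nlinarith
    calc (1 + τ / 2) ^ r * (1 - r * τ / 2) ≤ (1 + τ / 2) ^ r * (1 + -(τ / 2)) ^ r := by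
          gcongr; linarith
      _ ≤ 1 := b2
  have hmain : (2 : ℝ) ^ r * (1 + τ / 2) ^ r - 1 ≤
      (2 ^ r - 1) * (1 + τ / 2) ^ r * Real.exp (kap r * τ) := by
    have c1 : kap r * τ + 1 ≤ Real.exp (kap r * τ) := Real.add_one_le_exp _
    have c2 : (2 ^ r - 1) * (kap r * τ) = r / 2 * τ := by
      unfold kap; field_simp
    calc (2 : ℝ) ^ r * (1 + τ / 2) ^ r - 1
        ≤ (2 ^ r - 1) * (1 + τ / 2) ^ r + (1 + τ / 2) ^ r * (r / 2 * τ) := by
          nlinarith [hbern]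
      _ = (2 ^ r - 1) * (1 + τ / 2) ^ r * (kap r * τ + 1) := by rw [← c2]; ring
      _ ≤ _ := by gcongr
  have hlog : Real.log (1 + τ / 2) ≤ Real.log (1 + τ) / 2 + τ ^ 2 / 8 := by
    have d1 : (1 + τ / 2) ^ 2 ≤ (1 + τ) * Real.exp (τ ^ 2 / 4) := by
      have := Real.add_one_le_exp (τ ^ 2 / 4)
      have h3 : (1 + τ) * (τ ^ 2 / 4 + 1) ≤ (1 + τ) * Real.exp (τ ^ 2 / 4) := by gcongr
      nlinarith [h3, sq_nonneg τ, mul_pos h0 (pow_pos h0 2)]
    have d2 := Real.log_le_log (by positivity) d1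
    rw [Real.log_pow, Real.log_mul hx.ne' (Real.exp_pos _).ne', Real.log_exp] at d2
    push_cast at d2
    linarith
  have hE := eval_piece_le (s := s) (u := u) hr ha hx (by ring) hy
    (by nlinarith) hmain hlog
  have hC := coeff_le_of_nonneg (nonneg_piece r t s u a) hx m
  have hxm : (1 + τ) ^ m = Real.exp (m * Real.log (1 + τ)) := by
    rw [mul_comm, Real.exp_mul, Real.exp_log hx, Real.rpow_natCast]
  have hle := hC.trans hE
  rw [hxm] at hle
  have hfin : (piece r t s u a).coeff m ≤ (piece r t s u a).eval 1 *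
      Real.exp ((u + s) * Real.log (1 + τ) + r * t * (Real.log (1 + τ) / 2 + τ ^ 2 / 8) +
        (t - a) * (kap r * τ)) * Real.exp (-(m * Real.log (1 + τ))) := by
    rw [Real.exp_neg, ← div_eq_mul_inv, le_div_iff₀ (Real.exp_pos _)]
    exact hle
  refine hfin.trans (le_of_eq ?_)
  rw [mul_assoc, ← Real.exp_add]
  congr 2
  ring

lemma coeff_piece_lower {r t s u a m : ℕ} (hr : 1 ≤ r) (ha : a ≤ t) {τ : ℝ} (h0 : 0 < τ)
    (h1 : τ ≤ 1 / 2) :
    (piece r t s u a).coeff m ≤ (piece r t s u a).eval 1 *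
      Real.exp ((m - s - r * t / 2 - u) * (-Real.log (1 - τ)) + r * t * (τ ^ 2 / 4) -
        kap r * τ * (t - a)) := by
  have hN := two_pow_sub_one_pos hr
  have hx : (0 : ℝ) < 1 - τ := by linarith
  have hy : (0 : ℝ) < 1 - τ / 2 := by linarith
  have h2r : (1 : ℝ) ≤ 2 ^ r := one_le_pow₀ (by norm_num)
  have hQ : (0 : ℝ) < (1 - τ / 2) ^ r := by positivity
  have hbern : (1 - τ / 2) ^ r * (1 + r * τ / 2) ≤ 1 := by
    have b1 : 1 + (r : ℝ) * (τ / 2) ≤ (1 + τ / 2) ^ r :=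
      one_add_mul_le_pow (by linarith) r
    have b2 : (1 - τ / 2) ^ r * (1 + τ / 2) ^ r ≤ 1 := by
      rw [← mul_pow]
      apply pow_le_one₀
      · nlinarith
      · nlinarith
    calc (1 - τ / 2) ^ r * (1 + r * τ / 2) ≤ (1 - τ / 2) ^ r * (1 + τ / 2) ^ r := by
          gcongr; linarith
      _ ≤ 1 := b2
  have hge : 1 ≤ (2 : ℝ) ^ r * (1 - τ / 2) ^ r := by
    rw [← mul_pow]
    exact one_le_pow₀ (by linarith)
  have hmain : (2 : ℝ) ^ r * (1 - τ / 2) ^ r - 1 ≤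
      (2 ^ r - 1) * (1 - τ / 2) ^ r * Real.exp (-(kap r * τ)) := by
    have c1 : -(kap r * τ) + 1 ≤ Real.exp (-(kap r * τ)) := Real.add_one_le_exp _
    have c2 : (2 ^ r - 1) * (kap r * τ) = r / 2 * τ := by
      unfold kap; field_simp
    calc (2 : ℝ) ^ r * (1 - τ / 2) ^ r - 1
        ≤ (2 ^ r - 1) * (1 - τ / 2) ^ r - (1 - τ / 2) ^ r * (r / 2 * τ) := by
          nlinarith [hbern]
      _ = (2 ^ r - 1) * (1 - τ / 2) ^ r * (-(kap r * τ) + 1) := by rw [← c2]; ring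
      _ ≤ _ := by gcongr
  have hlog : Real.log (1 - τ / 2) ≤ Real.log (1 - τ) / 2 + τ ^ 2 / 4 := by
    have d1 : (1 - τ / 2) ^ 2 ≤ (1 - τ) * Real.exp (τ ^ 2 / 2) := by
      have := Real.add_one_le_exp (τ ^ 2 / 2)
      have h3 : (1 - τ) * (τ ^ 2 / 2 + 1) ≤ (1 - τ) * Real.exp (τ ^ 2 / 2) := by gcongr
      nlinarith [h3, sq_nonneg τ, mul_nonneg (sub_nonneg.2 h1) (pow_pos h0 2).le]
    have d2 := Real.log_le_log (by positivity) d1
    rw [Real.log_pow, Real.log_mul hx.ne' (Real.exp_pos _).ne', Real.log_exp] at d2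
    push_cast at d2
    linarith
  have hE := eval_piece_le (s := s) (u := u) hr ha hx (by ring) hy hge hmain hlog
  have hC := coeff_le_of_nonneg (nonneg_piece r t s u a) hx m
  have hxm : (1 - τ) ^ m = Real.exp (m * Real.log (1 - τ)) := by
    rw [mul_comm, Real.exp_mul, Real.exp_log hx, Real.rpow_natCast]
  have hle := hC.trans hE
  rw [hxm] at hle
  have hfin : (piece r t s u a).coeff m ≤ (piece r t s u a).eval 1 *
      Real.exp ((u + s) * Real.log (1 - τ) + r * t * (Real.log (1 - τ) / 2 + τ ^ 2 / 4) +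
        (t - a) * (-(kap r * τ))) * Real.exp (-(m * Real.log (1 - τ))) := by
    rw [Real.exp_neg, ← div_eq_mul_inv, le_div_iff₀ (Real.exp_pos _)]
    exact hle
  refine hfin.trans (le_of_eq ?_)
  rw [mul_assoc, ← Real.exp_add]
  congr 2
  ring

end Pool.Agent.Work.MP_fd33cb_co
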