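import Mathlib
import Pool.Agent.Work.MP_fd33cb_co.Gadget

/-!
# A well spread family of hub tuples (counting argument)
-/

set_option autoImplicit false

namespace Pool.Agent.Work.MP_fd33cb_co

open Finset

lemma sum_weight {h r : ℕ} (W : Finset (Fin h)) :
    ∑ v : Fin r → Fin h, (if ∀ b, v b ∈ W then (16 : ℝ) else 1) = (h : ℝ) ^ r + 15 * (#W : ℝ) ^ r := by
  have h1 : ∀ v : Fin r → Fin h, (if ∀ b, v b ∈ W then (16 : ℝ) else 1) =
      1 + 15 * (if ∀ b, v b ∈ W then (1 : ℝ) else 0) := by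
    intro v; split_ifs <;> norm_num
  simp_rw [h1]
  rw [Finset.sum_add_distrib, ← Finset.mul_sum, ← Finset.sum_filter, Finset.sum_const,
    Finset.sum_const, Finset.card_univ, Fintype.card_fun, Fintype.card_fin, Fintype.card_fin]
  have h2 : (univ.filter fun v : Fin r → Fin h => ∀ b, v b ∈ W) =
      Fintype.piFinset fun _ : Fin r => W := by
    ext v; simp [Fintype.mem_piFinset]
  rw [h2, Fintype.card_piFinset_const]
  simp

lemma sum_moment {h r M : ℕ} (W : Finset (Fin h)) :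
    ∑ f : Fin M → (Fin r → Fin h), (16 : ℝ) ^ #(univ.filter fun j => ∀ b, f j b ∈ W) =
      ((h : ℝ) ^ r + 15 * (#W : ℝ) ^ r) ^ M := by
  rw [← sum_weight, Fintype.sum_pow]
  refine Finset.sum_congr rfl fun f _ => ?_
  rw [Finset.prod_ite, Finset.prod_const, Finset.prod_const_one, mul_one]

lemma exists_fin_family (k N : ℕ) (hk : 1 ≤ k) (hN : 10 ≤ N) :
    ∃ f : Fin (32 * k * N) → (Fin 128 → Fin (32 * k)), ∀ W : Finset (Fin (32 * k)),
      #W ≤ 31 * k → 8 * #(univ.filter fun j => ∀ b, f j b ∈ W) ≤ 32 * k * N := by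
  classical
  by_contra hcon
  push Not at hcon
  set M := 32 * k * N with hM
  set h := 32 * k with hh
  set T : ℝ := (2 : ℝ) ^ (16 * k * N) with hT
  have hTpos : 0 < T := by positivity
  -- each map is bad for some set
  have step1 : (Fintype.card (Fin M → (Fin 128 → Fin h)) : ℝ) * T ≤
      ∑ W ∈ (univ.filter fun W : Finset (Fin h) => #W ≤ 31 * k),
        ∑ f : Fin M → (Fin 128 → Fin h), (16 : ℝ) ^ #(univ.filter fun j => ∀ b, f j b ∈ W) := by
    rw [Finset.sum_comm, ← nsmul_eq_mul, ← Finset.card_univ, ← Finset.sum_const]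
    refine Finset.sum_le_sum fun f _ => ?_
    obtain ⟨W, hW1, hW2⟩ := hcon f
    have hmem : W ∈ (univ.filter fun W : Finset (Fin h) => #W ≤ 31 * k) := by simp [hW1]
    refine le_trans ?_ (Finset.single_le_sum
      (f := fun W => (16 : ℝ) ^ #(univ.filter fun j => ∀ b, f j b ∈ W))
      (fun _ _ => by positivity) hmem)
    have : (16 : ℝ) ^ #(univ.filter fun j => ∀ b, f j b ∈ W) =
        2 ^ (4 * #(univ.filter fun j => ∀ b, f j b ∈ W)) := by
      rw [pow_mul]; norm_num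
    rw [hT, this]
    apply pow_le_pow_right₀ (by norm_num)
    have e1 : M = 2 * (16 * k * N) := by rw [hM]; ring
    omega
  have hkR : (1 : ℝ) ≤ k := by exact_mod_cast hk
  have step2 : ∀ W ∈ (univ.filter fun W : Finset (Fin h) => #W ≤ 31 * k),
      ∑ f : Fin M → (Fin 128 → Fin h), (16 : ℝ) ^ #(univ.filter fun j => ∀ b, f j b ∈ W) ≤
      ((h : ℝ) ^ 128 * (13 / 10)) ^ M := by
    intro W hW
    rw [sum_moment]
    apply pow_le_pow_left₀ (by positivity)
    have hW' : (#W : ℝ) ≤ 31 * k := by exact_mod_cast (Finset.mem_filter.1 hW).2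
    have e1 : (#W : ℝ) ^ 128 ≤ (31 * k) ^ 128 := pow_le_pow_left₀ (by positivity) hW' _
    have e2 : (h : ℝ) ^ 128 = (32 * k) ^ 128 := by rw [hh]; push_cast; rfl
    rw [e2]
    rw [mul_pow] at e1 ⊢
    have hk128 : (0 : ℝ) < (k : ℝ) ^ 128 := by positivity
    have e3 : (15 : ℝ) * 31 ^ 128 ≤ 3 / 10 * 32 ^ 128 := by norm_num
    nlinarith [mul_le_mul_of_nonneg_right e3 hk128.le]
  have step3 : (Fintype.card (Fin M → (Fin 128 → Fin h)) : ℝ) * T ≤
      2 ^ h * ((h : ℝ) ^ 128 * (13 / 10)) ^ M := by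
    refine step1.trans ((Finset.sum_le_card_nsmul _ _ _ step2).trans ?_)
    rw [nsmul_eq_mul]
    gcongr
    calc (#(univ.filter fun W : Finset (Fin h) => #W ≤ 31 * k) : ℝ)
        ≤ (#(univ : Finset (Finset (Fin h))) : ℝ) := by
          exact_mod_cast Finset.card_le_card (Finset.filter_subset _ _)
      _ = 2 ^ h := by simp
  have hcard : (Fintype.card (Fin M → (Fin 128 → Fin h)) : ℝ) = ((h : ℝ) ^ 128) ^ M := by
    simp
  rw [hcard, mul_pow, mul_left_comm] at step3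
  have hpos : (0 : ℝ) < ((h : ℝ) ^ 128) ^ M := by
    have : (0 : ℝ) < h := by rw [hh]; push_cast; positivity
    positivity
  have step4 : T ≤ 2 ^ h * (13 / 10) ^ M := le_of_mul_le_mul_left step3 hpos
  have e1 : M = 2 * (16 * k * N) := by rw [hM]; ring
  have e2 : h = 2 * (16 * k) := by rw [hh]; ring
  have e3 : (16 * k * N) = N * (16 * k) := by ring
  rw [hT, e1, e2, e3, pow_mul (2 : ℝ) N (16 * k), pow_mul (2 : ℝ) 2 (16 * k),
    pow_mul (13 / 10 : ℝ), pow_mul ((13 / 10 : ℝ) ^ 2), ← mul_pow] at step4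
  have hlt : (2 : ℝ) ^ 2 * ((13 / 10) ^ 2) ^ N < 2 ^ N := by
    obtain ⟨q, rfl⟩ : ∃ q, N = 10 + q := ⟨N - 10, by omega⟩
    rw [pow_add, pow_add (2 : ℝ)]
    have hq : (((13 : ℝ) / 10) ^ 2) ^ q ≤ 2 ^ q := pow_le_pow_left₀ (by norm_num) (by norm_num) _
    have hq2 : (0 : ℝ) < 2 ^ q := by positivity
    have h10 : (2 : ℝ) ^ 2 * (((13 : ℝ) / 10) ^ 2) ^ 10 < 2 ^ 10 := by norm_num
    calc (2 : ℝ) ^ 2 * ((((13 : ℝ) / 10) ^ 2) ^ 10 * (((13 : ℝ) / 10) ^ 2) ^ q)
        = ((2 : ℝ) ^ 2 * (((13 : ℝ) / 10) ^ 2) ^ 10) * (((13 : ℝ) / 10) ^ 2) ^ q := by ring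
      _ ≤ ((2 : ℝ) ^ 2 * (((13 : ℝ) / 10) ^ 2) ^ 10) * 2 ^ q := by gcongr
      _ < 2 ^ 10 * 2 ^ q := by gcongr
  have hne : 16 * k ≠ 0 := by omega
  have := pow_lt_pow_left₀ hlt (by positivity) hne
  linarith

/-- A family of hub tuples such that every set missing at least `k` of the `32 k` hubs saturates
at most one eighth of the gadgets. -/
lemma exists_family (k N : ℕ) (hk : 1 ≤ k) (hN : 10 ≤ N) :
    ∃ f : ℕ → (Fin 128 → Fin (32 * k)), ∀ U : Finset (Option (Fin (32 * k))),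
      #U ≤ 31 * k → 8 * satCount f (32 * k * N) U ≤ 32 * k * N := by
  classical
  obtain ⟨f, hf⟩ := exists_fin_family k N hk hN
  have hpos : 0 < 32 * k := by omega
  refine ⟨fun j => if hj : j < 32 * k * N then f ⟨j, hj⟩ else fun _ => ⟨0, hpos⟩, ?_⟩
  intro U hU
  have hW := hf U.eraseNone ((Finset.card_eraseNone_le U).trans hU)
  refine le_trans (Nat.mul_le_mul_left 8 (le_of_eq ?_)) hW
  unfold satCount
  rw [Finset.card_filter, Finset.card_filter, ← Fin.sum_univ_eq_sum_range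
    (fun j => if Sat (fun j => if hj : j < 32 * k * N then f ⟨j, hj⟩ else fun _ => ⟨0, hpos⟩) U j
      then 1 else 0)]
  refine Finset.sum_congr rfl fun j _ => ?_
  have : Sat (fun j => if hj : j < 32 * k * N then f ⟨j, hj⟩ else fun _ => ⟨0, hpos⟩) U j ↔
      ∀ b, f j b ∈ U.eraseNone := by
    unfold Sat
    simp [Finset.mem_eraseNone]
  simp only [this]

end Pool.Agent.Work.MP_fd33cb_co
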