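import Mathlib
import Pool.Agent.Work.MP_fd33cb_co.Piece
import Pool.Agent.Work.MP_fd33cb_co.Random

/-!
# Two phases: weights of hub configurations
-/

set_option autoImplicit false

namespace Pool.Agent.Work.MP_fd33cb_co

open Finset

/-- The number of proper nonempty subsets parameter `2 ^ 128 - 1`. -/
def NN : ℕ := 2 ^ 128 - 1

lemma NN_add_one : NN + 1 = 2 ^ 128 := by unfold NN; norm_num

lemma NN_ge : 10 ^ 30 ≤ NN := by unfold NN; norm_num

lemma NN_cast : (NN : ℝ) = 2 ^ 128 - 1 := by
  have h1 : ((NN + 1 : ℕ) : ℝ) = ((2 ^ 128 : ℕ) : ℝ) := by rw [NN_add_one]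
  push_cast at h1
  linarith

lemma NN_geR : (10 : ℝ) ^ 30 ≤ NN := by exact_mod_cast NN_ge

lemma NN_pos : (0 : ℝ) < NN := lt_of_lt_of_le (by norm_num) NN_geR

/-- The logarithmic gain of one saturated gadget. -/
noncomputable def bb : ℝ := Real.log (1 + 1 / NN)

lemma bb_le : bb ≤ 1 / NN := by
  unfold bb
  have h := NN_pos
  have := Real.log_le_sub_one_of_pos (x := 1 + 1 / (NN : ℝ)) (by positivity)
  linarith

lemma le_bb : 1 / (NN + 1 : ℝ) ≤ bb := by
  unfold bb
  have h := NN_pos
  have := Real.one_sub_inv_le_log_of_pos (x := 1 + 1 / (NN : ℝ)) (by positivity)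
  have e : 1 - (1 + 1 / (NN : ℝ))⁻¹ = 1 / (NN + 1 : ℝ) := by field_simp; ring
  rw [e] at this
  exact this

lemma bb_pos : 0 < bb := lt_of_lt_of_le (by have := NN_pos; positivity) le_bb

lemma exp_bb : Real.exp bb = 1 + 1 / NN := by
  unfold bb
  rw [Real.exp_log (by have := NN_pos; positivity)]

variable {h r : ℕ}

/-- Normalised weight of a hub configuration. -/
noncomputable def om (f : ℕ → Fin r → Fin h) (t : ℕ) (U : Finset (Option (Fin h))) : ℝ :=
  Real.exp (bb * satCount f t U)

lemma om_pos (f : ℕ → Fin r → Fin h) (t : ℕ) (U : Finset (Option (Fin h))) : 0 < om f t U :=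
  Real.exp_pos _

lemma satCount_le (f : ℕ → Fin r → Fin h) (t : ℕ) (U : Finset (Option (Fin h))) :
    satCount f t U ≤ t := by
  unfold satCount
  exact (Finset.card_filter_le _ _).trans (by simp)

lemma satCount_mono (f : ℕ → Fin r → Fin h) {t t' : ℕ} (htt : t ≤ t')
    (U : Finset (Option (Fin h))) : satCount f t U ≤ satCount f t' U := by
  unfold satCount
  apply Finset.card_le_card
  apply Finset.filter_subset_filter
  exact Finset.range_subset_range.2 htt

lemma satCount_succ (f : ℕ → Fin r → Fin h) (t : ℕ) (U : Finset (Option (Fin h))) :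
    satCount f (t + 1) U = satCount f t U + (if Sat f U t then 1 else 0) := by
  unfold satCount
  rw [Finset.range_add_one, Finset.filter_insert]
  split_ifs with hs
  · rw [Finset.card_insert_of_notMem (by simp)]
  · rfl

lemma satCount_univ (f : ℕ → Fin r → Fin h) (t : ℕ) : satCount f t univ = t := by
  unfold satCount Sat
  simp

lemma one_le_om (f : ℕ → Fin r → Fin h) (t : ℕ) (U : Finset (Option (Fin h))) :
    1 ≤ om f t U := by
  unfold om
  apply Real.one_le_exp
  have := bb_pos
  positivity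

/-- Nonempty hub configurations. -/
def conf (h : ℕ) : Finset (Finset (Option (Fin h))) :=
  univ.filter fun U => U.Nonempty

/-- The partition function. -/
noncomputable def Z (f : ℕ → Fin r → Fin h) (t : ℕ) : ℝ := ∑ U ∈ conf h, om f t U

/-- The observable. -/
noncomputable def gg (f : ℕ → Fin r → Fin h) (t : ℕ) (U : Finset (Option (Fin h))) : ℝ :=
  #U + 64 / NN * (t - satCount f t U)

/-- The expectation of the observable. -/
noncomputable def EE (f : ℕ → Fin r → Fin h) (t : ℕ) : ℝ :=
  (∑ U ∈ conf h, om f t U * gg f t U) / Z f t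

lemma exp_le_Z (f : ℕ → Fin r → Fin h) (t : ℕ) : Real.exp (bb * t) ≤ Z f t := by
  unfold Z
  have hmem : (univ : Finset (Option (Fin h))) ∈ conf h := by
    unfold conf
    rw [Finset.mem_filter]
    exact ⟨Finset.mem_univ _, ⟨none, Finset.mem_univ _⟩⟩
  refine le_trans (le_of_eq ?_) (Finset.single_le_sum (f := fun U => om f t U)
    (fun U _ => (om_pos f t U).le) hmem)
  simp only [om, satCount_univ]

lemma card_conf (h : ℕ) : 2 ^ h ≤ #(conf h) := by
  unfold conf
  have h1 := Finset.card_filter_add_card_filter_not (s := (univ : Finset (Finset (Option (Fin h)))))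
    (fun U => U.Nonempty)
  have h2 : #(univ.filter fun U : Finset (Option (Fin h)) => ¬ U.Nonempty) = 1 := by
    rw [Finset.card_eq_one]
    exact ⟨∅, by ext y; simp [Finset.not_nonempty_iff_eq_empty]⟩
  rw [h2, Finset.card_univ, Fintype.card_finset, Fintype.card_option, Fintype.card_fin,
    pow_succ] at h1
  have : 1 ≤ 2 ^ h := Nat.one_le_two_pow
  omega

lemma card_conf_le (h : ℕ) : #(conf h) ≤ 2 ^ (h + 1) := by
  unfold conf
  refine (Finset.card_filter_le _ _).trans (le_of_eq ?_)
  rw [Finset.card_univ, Fintype.card_finset, Fintype.card_option, Fintype.card_fin]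

lemma two_pow_le_Z (f : ℕ → Fin r → Fin h) (t : ℕ) : (2 : ℝ) ^ h ≤ Z f t := by
  unfold Z
  calc (2 : ℝ) ^ h ≤ #(conf h) := by exact_mod_cast card_conf h
    _ = ∑ U ∈ conf h, (1 : ℝ) := by simp
    _ ≤ _ := Finset.sum_le_sum fun U _ => one_le_om f t U

lemma Z_pos (f : ℕ → Fin r → Fin h) (t : ℕ) : 0 < Z f t :=
  lt_of_lt_of_le (Real.exp_pos _) (exp_le_Z f t)

lemma gg_nonneg (f : ℕ → Fin r → Fin h) (t : ℕ) (U : Finset (Option (Fin h))) :
    0 ≤ gg f t U := by
  unfold gg
  have h1 : (satCount f t U : ℝ) ≤ t := by exact_mod_cast satCount_le f t U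
  have h2 := NN_pos
  have h3 : 0 ≤ (t : ℝ) - satCount f t U := by linarith
  positivity

lemma card_le_succ (U : Finset (Option (Fin h))) : #U ≤ h + 1 := by
  refine (Finset.card_le_univ U).trans (le_of_eq ?_)
  simp

lemma gg_le (f : ℕ → Fin r → Fin h) (t : ℕ) (U : Finset (Option (Fin h))) :
    gg f t U ≤ h + 1 + 64 / NN * t := by
  unfold gg
  have h1 : (0 : ℝ) ≤ satCount f t U := by positivity
  have h2 := NN_pos
  have h3 : (#U : ℝ) ≤ h + 1 := by exact_mod_cast card_le_succ U
  have h4 : 64 / (NN : ℝ) * (t - satCount f t U) ≤ 64 / NN * t := by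
    gcongr
    linarith
  linarith

/-- The expectation cannot drop much in one step. -/
lemma EE_step (f : ℕ → Fin r → Fin h) (t : ℕ) :
    EE f t - EE f t / (NN + 1) ≤ EE f (t + 1) := by
  have hN := NN_pos
  have hZ := Z_pos f t
  have hZ' := Z_pos f (t + 1)
  have hs : ∀ U : Finset (Option (Fin h)), om f t U ≤ om f (t + 1) U ∧
      om f (t + 1) U ≤ om f t U * (1 + 1 / NN) := by
    intro U
    unfold om
    rw [satCount_succ]
    split_ifs with hU
    · push_cast
      rw [mul_add, mul_one, Real.exp_add, exp_bb]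
      refine ⟨?_, le_rfl⟩
      have : (0 : ℝ) ≤ 1 / NN := by positivity
      nlinarith [Real.exp_pos (bb * satCount f t U)]
    · simp only [add_zero, le_refl, true_and]
      have : (0 : ℝ) ≤ 1 / NN := by positivity
      nlinarith [Real.exp_pos (bb * satCount f t U)]
  have hg : ∀ U : Finset (Option (Fin h)), gg f t U ≤ gg f (t + 1) U := by
    intro U
    unfold gg
    rw [satCount_succ]
    have : (64 : ℝ) / NN * (t - satCount f t U) ≤
        64 / NN * ((t + 1 : ℕ) - (satCount f t U + (if Sat f U t then 1 else 0) : ℕ)) := by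
      apply mul_le_mul_of_nonneg_left _ (by positivity)
      split_ifs <;> push_cast <;> linarith
    linarith
  have hnum : ∑ U ∈ conf h, om f t U * gg f t U ≤
      ∑ U ∈ conf h, om f (t + 1) U * gg f (t + 1) U := by
    refine Finset.sum_le_sum fun U _ => ?_
    exact mul_le_mul (hs U).1 (hg U) (gg_nonneg f t U) (om_pos _ _ _).le
  have hden : Z f (t + 1) ≤ Z f t * (1 + 1 / NN) := by
    unfold Z
    rw [Finset.sum_mul]
    exact Finset.sum_le_sum fun U _ => (hs U).2
  have hS0 : 0 ≤ ∑ U ∈ conf h, om f t U * gg f t U :=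
    Finset.sum_nonneg fun U _ => mul_nonneg (om_pos _ _ _).le (gg_nonneg f t U)
  have e1 : EE f t - EE f t / (NN + 1) =
      (∑ U ∈ conf h, om f t U * gg f t U) / (Z f t * (1 + 1 / NN)) := by
    unfold EE
    field_simp
    ring
  rw [e1]
  unfold EE
  exact div_le_div₀ (hS0.trans hnum) hnum hZ' hden

lemma card_large (k : ℕ) :
    (#((conf (32 * k)).filter fun U => 31 * k < #U) : ℝ) ≤ 2 * 86 ^ k := by
  have h1 := Fintype.sum_pow_mul_eq_add_pow (Option (Fin (32 * k))) (1 : ℝ) (1 / 32)
  simp only [one_pow, one_mul, Fintype.card_option, Fintype.card_fin] at h1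
  have h2 : ∑ U ∈ (conf (32 * k)).filter (fun U => 31 * k < #U), ((1 : ℝ) / 32) ^ k ≤
      (1 + 1 / 32) ^ (32 * k + 1) := by
    rw [← h1]
    refine le_trans (Finset.sum_le_sum (g := fun U => ((1 : ℝ) / 32) ^ (32 * k + 1 - #U)) ?_)
      (Finset.sum_le_sum_of_subset_of_nonneg (Finset.subset_univ _) fun _ _ _ => by positivity)
    intro U hU
    have := (Finset.mem_filter.1 hU).2
    apply pow_le_pow_of_le_one (by norm_num) (by norm_num)
    omega
  rw [Finset.sum_const, nsmul_eq_mul, one_div, inv_pow] at h2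
  have h3 : (0 : ℝ) < 32 ^ k := by positivity
  have h4 : (#((conf (32 * k)).filter fun U => 31 * k < #U) : ℝ) ≤
      (1 + (32 : ℝ)⁻¹) ^ (32 * k + 1) * 32 ^ k := by
    have := mul_le_mul_of_nonneg_right h2 h3.le
    rwa [mul_assoc, inv_mul_cancel₀ h3.ne', mul_one] at this
  refine h4.trans ?_
  rw [pow_succ, pow_mul]
  have h5 : (((1 : ℝ) + (32 : ℝ)⁻¹) ^ 32) ^ k * (1 + (32 : ℝ)⁻¹) * 32 ^ k =
      (1 + (32 : ℝ)⁻¹) * ((1 + (32 : ℝ)⁻¹) ^ 32 * 32) ^ k := by
    rw [mul_pow]; ring
  rw [h5]
  gcongr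
  · norm_num
  · norm_num

end Pool.Agent.Work.MP_fd33cb_co
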