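import Mathlib
import Pool.Agent.Work.MP_fd33cb_co.Phase

/-!
# Mass estimates
-/

set_option autoImplicit false

namespace Pool.Agent.Work.MP_fd33cb_co

open Finset

/-- The spreading property of the family of tuples. -/
def Good (k : ℕ) (f : ℕ → Fin 128 → Fin (32 * k)) : Prop :=
  ∀ U : Finset (Option (Fin (32 * k))), #U ≤ 31 * k → 8 * satCount f (32 * k * NN) U ≤ 32 * k * NN

variable {k : ℕ} {f : ℕ → Fin 128 → Fin (32 * k)}

lemma Good.large (hf : Good k f) {t : ℕ} (h0 : 16 * k * NN ≤ t) (h1 : t ≤ 32 * k * NN)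
    {U : Finset (Option (Fin (32 * k)))} (hU : t < 4 * satCount f t U) : 31 * k < #U := by
  by_contra hcon
  push Not at hcon
  have e1 := hf U hcon
  have e2 := satCount_mono f h1 U
  have e3 : 32 * k * NN = 2 * (16 * k * NN) := by ring
  omega

lemma om_le {t : ℕ} {U : Finset (Option (Fin (32 * k)))} {x : ℝ} (h : (satCount f t U : ℝ) ≤ x) :
    om f t U ≤ Real.exp (bb * x) := by
  unfold om
  have := bb_pos
  gcongr

lemma mass_mid (hf : Good k f) {t : ℕ} (h0 : 16 * k * NN ≤ t) (h1 : t ≤ 32 * k * NN) :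
    ∑ U ∈ (conf (32 * k)).filter (fun U => t < 4 * satCount f t U ∧ 4 * satCount f t U < 3 * t),
      om f t U ≤ 2 * (1 / 2) ^ k * Z f t := by
  have hZ := Z_pos f t
  have s1 : ∑ U ∈ (conf (32 * k)).filter (fun U => t < 4 * satCount f t U ∧
      4 * satCount f t U < 3 * t), om f t U ≤ (2 * 86 ^ k) * Real.exp (bb * (3 / 4 * t)) := by
    refine (Finset.sum_le_card_nsmul _ _ (Real.exp (bb * (3 / 4 * t))) ?_).trans ?_
    · intro U hU
      apply om_le
      have := (Finset.mem_filter.1 hU).2.2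
      have h2 : (4 * satCount f t U : ℝ) < 3 * t := by exact_mod_cast this
      linarith
    · rw [nsmul_eq_mul]
      gcongr
      refine le_trans ?_ (card_large k)
      norm_cast
      apply Finset.card_le_card
      intro U hU
      rw [Finset.mem_filter] at hU ⊢
      exact ⟨hU.1, hf.large h0 h1 hU.2.1⟩
  have s2 : Real.exp (bb * (3 / 4 * t)) * 2 ^ (8 * k) ≤ Z f t := by
    apply le_of_pow_le_pow_left₀ (n := 4) (by norm_num) hZ.le
    have e1 : (Real.exp (bb * (3 / 4 * t)) * 2 ^ (8 * k)) ^ 4 =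
        Real.exp (bb * t) ^ 3 * 2 ^ (32 * k) := by
      rw [mul_pow, ← Real.exp_nat_mul, ← Real.exp_nat_mul, ← pow_mul]
      congr 1
      · congr 1; push_cast; ring
      · congr 1; ring
    rw [e1, pow_succ (Z f t) 3]
    exact mul_le_mul (pow_le_pow_left₀ (Real.exp_pos _).le (exp_le_Z f t) 3)
      (two_pow_le_Z f t) (by positivity) (by positivity)
  refine s1.trans ?_
  have h2 : (0 : ℝ) < 2 ^ (8 * k) := by positivity
  have s3 : Real.exp (bb * (3 / 4 * t)) ≤ Z f t / 2 ^ (8 * k) := by
    rw [le_div_iff₀ h2]; exact s2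
  calc (2 * 86 ^ k) * Real.exp (bb * (3 / 4 * t))
      ≤ (2 * 86 ^ k) * (Z f t / 2 ^ (8 * k)) := by gcongr
    _ = 2 * (86 / 256) ^ k * Z f t := by
        rw [pow_mul, div_pow]; norm_num; ring
    _ ≤ _ := by
        have h3 : (86 / 256 : ℝ) ^ k ≤ (1 / 2) ^ k :=
          pow_le_pow_left₀ (by norm_num) (by norm_num) k
        exact mul_le_mul_of_nonneg_right (mul_le_mul_of_nonneg_left h3 (by norm_num)) hZ.le

lemma exp_sixteen : (86 : ℝ) * Real.exp 16 ≤ 2 ^ 31 := by
  have h1 : Real.exp 16 = (Real.exp 1) ^ 16 := by rw [← Real.exp_nat_mul]; norm_num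
  have h2 : Real.exp 1 ≤ 2.72 := by have := Real.exp_one_lt_d9; linarith
  have h3 : (Real.exp 1) ^ 16 ≤ 2.72 ^ 16 := pow_le_pow_left₀ (Real.exp_pos _).le h2 _
  rw [h1]
  norm_num at h3 ⊢
  linarith

lemma exp_twentythree : (2 : ℝ) ^ 33 ≤ Real.exp 23 := by
  have h1 : Real.exp 23 = (Real.exp 1) ^ 23 := by rw [← Real.exp_nat_mul]; norm_num
  have h2 : 2.718 ≤ Real.exp 1 := by have := Real.exp_one_gt_d9; linarith
  have h3 : 2.718 ^ 23 ≤ (Real.exp 1) ^ 23 := pow_le_pow_left₀ (by norm_num) h2 _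
  rw [h1]
  norm_num at h3 ⊢
  linarith

lemma mass_start (hf : Good k f) :
    ∑ U ∈ (conf (32 * k)).filter (fun U => 16 * k * NN < 4 * satCount f (16 * k * NN) U),
      om f (16 * k * NN) U ≤ 2 * (1 / 2) ^ k * Z f (16 * k * NN) := by
  set t := 16 * k * NN with ht
  have hZ := Z_pos f t
  have hN := NN_pos
  have s1 : ∑ U ∈ (conf (32 * k)).filter (fun U => t < 4 * satCount f t U), om f t U ≤
      (2 * 86 ^ k) * Real.exp (bb * t) := by
    refine (Finset.sum_le_card_nsmul _ _ (Real.exp (bb * t)) ?_).trans ?_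
    · intro U hU
      apply om_le
      exact_mod_cast satCount_le f t U
    · rw [nsmul_eq_mul]
      gcongr
      refine le_trans ?_ (card_large k)
      norm_cast
      apply Finset.card_le_card
      intro U hU
      rw [Finset.mem_filter] at hU ⊢
      exact ⟨hU.1, hf.large le_rfl (by gcongr; norm_num) hU.2⟩
  have s2 : Real.exp (bb * t) ≤ Real.exp 16 ^ k := by
    rw [← Real.exp_nat_mul]
    apply Real.exp_le_exp.2
    calc bb * t ≤ 1 / NN * t := by have := bb_le; gcongr
      _ = k * 16 := by rw [ht]; push_cast; field_simp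
  have s3 := two_pow_le_Z f t
  calc _ ≤ (2 * 86 ^ k) * Real.exp (bb * t) := s1
    _ ≤ (2 * 86 ^ k) * Real.exp 16 ^ k := by gcongr
    _ = 2 * (86 * Real.exp 16) ^ k := by rw [mul_pow]; ring
    _ ≤ 2 * (2 ^ 31) ^ k := by gcongr; exact exp_sixteen
    _ = 2 * (1 / 2) ^ k * 2 ^ (32 * k) := by
        rw [pow_mul, mul_assoc, ← mul_pow]; norm_num
    _ ≤ _ := by gcongr

lemma mass_end :
    ∑ U ∈ (conf (32 * k)).filter (fun U => 4 * satCount f (32 * k * NN) U ≤ 32 * k * NN),
      om f (32 * k * NN) U ≤ 2 * (1 / 2) ^ k * Z f (32 * k * NN) := by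
  set t := 32 * k * NN with ht
  have hZ := Z_pos f t
  have hN := NN_pos
  have hNge := NN_geR
  have s1 : ∑ U ∈ (conf (32 * k)).filter (fun U => 4 * satCount f t U ≤ t), om f t U ≤
      (2 ^ (32 * k + 1)) * Real.exp (bb * (t / 4)) := by
    refine (Finset.sum_le_card_nsmul _ _ (Real.exp (bb * (t / 4))) ?_).trans ?_
    · intro U hU
      apply om_le
      have := (Finset.mem_filter.1 hU).2
      have h2 : (4 * satCount f t U : ℝ) ≤ t := by exact_mod_cast this
      linarith
    · rw [nsmul_eq_mul]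
      gcongr
      calc (#((conf (32 * k)).filter (fun U => 4 * satCount f t U ≤ t)) : ℝ)
          ≤ #(conf (32 * k)) := by exact_mod_cast Finset.card_filter_le _ _
        _ ≤ _ := by exact_mod_cast card_conf_le (32 * k)
  have s2 : Real.exp (bb * (t / 4)) * (2 ^ 33) ^ k ≤ Real.exp (bb * t) := by
    have e1 : Real.exp (bb * t) = Real.exp (bb * (t / 4)) * Real.exp (3 / 4 * (bb * t)) := by
      rw [← Real.exp_add]; congr 1; ring
    rw [e1]
    gcongr
    have e2 : ((2 : ℝ) ^ 33) ^ k ≤ (Real.exp 23) ^ k :=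
      pow_le_pow_left₀ (by positivity) exp_twentythree k
    refine e2.trans ?_
    rw [← Real.exp_nat_mul]
    apply Real.exp_le_exp.2
    have e3 : 1 / (NN + 1 : ℝ) * t ≤ bb * t := by have := le_bb; gcongr
    have e4 : 1 / (NN + 1 : ℝ) * t = 32 * k * (NN / (NN + 1)) := by
      rw [ht]; push_cast; ring
    have e5 : (23 / 24 : ℝ) ≤ NN / (NN + 1) := by
      rw [le_div_iff₀ (by positivity)]; linarith
    have e6 : (0 : ℝ) ≤ k := by positivity
    rw [e4] at e3
    nlinarith [mul_le_mul_of_nonneg_left e5 e6]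
  have s3 := exp_le_Z f t
  have h33 : (0 : ℝ) < (2 ^ 33) ^ k := by positivity
  have s4 : Real.exp (bb * (t / 4)) ≤ Z f t / (2 ^ 33) ^ k := by
    rw [le_div_iff₀ h33]; exact s2.trans s3
  calc _ ≤ (2 ^ (32 * k + 1)) * Real.exp (bb * (t / 4)) := s1
    _ ≤ (2 ^ (32 * k + 1)) * (Z f t / (2 ^ 33) ^ k) := by gcongr
    _ = 2 * (1 / 2) ^ k * Z f t := by
        rw [pow_succ, pow_mul]
        have : ((2 : ℝ) ^ 33) ^ k = (2 ^ 32) ^ k * 2 ^ k := by rw [← mul_pow]; norm_num
        rw [this, one_div, inv_pow]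
        field_simp

/-- At the start the expectation is high. -/
lemma EE_start (hf : Good k f) (hk : 10 ≤ k) : 704 * k ≤ EE f (16 * k * NN) := by
  set t := 16 * k * NN with ht
  have hZ := Z_pos f t
  have hN := NN_pos
  have hkR : (10 : ℝ) ≤ k := by exact_mod_cast hk
  unfold EE
  rw [le_div_iff₀ hZ]
  have hm := mass_start hf
  rw [← ht] at hm
  have hsplit : Z f t = ∑ U ∈ (conf (32 * k)).filter (fun U => t < 4 * satCount f t U), om f t U +
      ∑ U ∈ (conf (32 * k)).filter (fun U => ¬ t < 4 * satCount f t U), om f t U := by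
    unfold Z
    rw [Finset.sum_filter_add_sum_filter_not]
  have hlow : 768 * k * ∑ U ∈ (conf (32 * k)).filter (fun U => ¬ t < 4 * satCount f t U), om f t U ≤
      ∑ U ∈ conf (32 * k), om f t U * gg f t U := by
    refine le_trans ?_ (Finset.sum_le_sum_of_subset_of_nonneg (Finset.filter_subset
      (fun U => ¬ t < 4 * satCount f t U) _) fun U _ _ =>
        mul_nonneg (om_pos _ _ _).le (gg_nonneg _ _ _))
    rw [Finset.mul_sum]
    refine Finset.sum_le_sum fun U hU => ?_
    have h1 := (Finset.mem_filter.1 hU).2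
    have h2 : (4 * satCount f t U : ℝ) ≤ t := by exact_mod_cast not_lt.1 h1
    have h3 : 768 * (k : ℝ) ≤ gg f t U := by
      unfold gg
      have h4 : (3 / 4 : ℝ) * t ≤ t - satCount f t U := by linarith
      have h5 : 64 / (NN : ℝ) * (3 / 4 * t) = 768 * k := by
        rw [ht]; push_cast; field_simp; ring
      have h6 : 64 / (NN : ℝ) * (3 / 4 * t) ≤ 64 / NN * (t - satCount f t U) := by gcongr
      have h7 : (0 : ℝ) ≤ #U := by positivity
      linarith
    rw [mul_comm]
    exact mul_le_mul_of_nonneg_left h3 (om_pos _ _ _).le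
  have hpow : (1 / 2 : ℝ) ^ k ≤ 1 / 1024 := by
    calc (1 / 2 : ℝ) ^ k ≤ (1 / 2) ^ 10 := pow_le_pow_of_le_one (by norm_num) (by norm_num) hk
      _ = 1 / 1024 := by norm_num
  have hm2 : ∑ U ∈ (conf (32 * k)).filter (fun U => t < 4 * satCount f t U), om f t U ≤
      1 / 512 * Z f t := by
    refine hm.trans ?_
    gcongr
    linarith
  have hrest : (511 / 512 : ℝ) * Z f t ≤
      ∑ U ∈ (conf (32 * k)).filter (fun U => ¬ t < 4 * satCount f t U), om f t U := by linarith
  refine le_trans ?_ hlow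
  calc 704 * (k : ℝ) * Z f t ≤ 768 * k * (511 / 512 * Z f t) := by
        have : 0 ≤ (k : ℝ) * Z f t := by positivity
        nlinarith
    _ ≤ _ := by gcongr

/-- At the end the expectation is low. -/
lemma EE_end (hf : Good k f) (hk : 10 ≤ k) : EE f (32 * k * NN) ≤ 608 * k := by
  set t := 32 * k * NN with ht
  have hZ := Z_pos f t
  have hN := NN_pos
  have hkR : (10 : ℝ) ≤ k := by exact_mod_cast hk
  unfold EE
  rw [div_le_iff₀ hZ]
  have hmB := mass_end (f := f)
  have hmM := mass_mid hf (t := t) (by rw [ht]; gcongr; norm_num) le_rfl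
  rw [← ht] at hmB
  have hpow : (1 / 2 : ℝ) ^ k ≤ 1 / 1024 := by
    calc (1 / 2 : ℝ) ^ k ≤ (1 / 2) ^ 10 := pow_le_pow_of_le_one (by norm_num) (by norm_num) hk
      _ = 1 / 1024 := by norm_num
  have hbad : ∑ U ∈ (conf (32 * k)).filter (fun U => 4 * satCount f t U < 3 * t), om f t U ≤
      1 / 256 * Z f t := by
    have hsub : ∑ U ∈ (conf (32 * k)).filter (fun U => 4 * satCount f t U < 3 * t), om f t U ≤
        ∑ U ∈ (conf (32 * k)).filter (fun U => 4 * satCount f t U ≤ t), om f t U +
        ∑ U ∈ (conf (32 * k)).filter (fun U => t < 4 * satCount f t U ∧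
          4 * satCount f t U < 3 * t), om f t U := by
      rw [← Finset.sum_union]
      · apply Finset.sum_le_sum_of_subset_of_nonneg
        · intro U hU
          rw [Finset.mem_union, Finset.mem_filter, Finset.mem_filter]
          rw [Finset.mem_filter] at hU
          by_cases h : 4 * satCount f t U ≤ t
          · exact Or.inl ⟨hU.1, h⟩
          · exact Or.inr ⟨hU.1, not_le.1 h, hU.2⟩
        · intro U _ _
          exact (om_pos _ _ _).le
      · rw [Finset.disjoint_filter]
        intro U _ h1 h2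
        omega
    have : 2 * (1 / 2 : ℝ) ^ k * Z f t ≤ 1 / 512 * Z f t := by gcongr; linarith
    linarith
  have hg : ∀ U ∈ conf (32 * k), om f t U * gg f t U ≤ (544 * k + 1) * om f t U +
      (if 4 * satCount f t U < 3 * t then om f t U * (1536 * k) else 0) := by
    intro U _
    have ho := om_pos f t U
    have hu : (#U : ℝ) ≤ 32 * k + 1 := by exact_mod_cast card_le_succ U
    have ha0 : (0 : ℝ) ≤ satCount f t U := by positivity
    have h5 : 64 / (NN : ℝ) * t = 2048 * k := by
      rw [ht]; push_cast; field_simp; ring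
    split_ifs with hc
    · have h6 : gg f t U ≤ 544 * k + 1 + 1536 * k := by
        have := gg_le f t U
        push_cast at this
        linarith
      nlinarith
    · have hc' : (3 * t : ℝ) ≤ 4 * satCount f t U := by exact_mod_cast not_lt.1 hc
      have h6 : gg f t U ≤ 544 * k + 1 := by
        unfold gg
        have h7 : 64 / (NN : ℝ) * (t - satCount f t U) ≤ 64 / NN * (t / 4) := by
          gcongr
          linarith
        linarith
      nlinarith
  calc ∑ U ∈ conf (32 * k), om f t U * gg f t U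
      ≤ ∑ U ∈ conf (32 * k), ((544 * k + 1) * om f t U +
        (if 4 * satCount f t U < 3 * t then om f t U * (1536 * k) else 0)) :=
        Finset.sum_le_sum hg
    _ = (544 * k + 1) * Z f t + (∑ U ∈ (conf (32 * k)).filter
        (fun U => 4 * satCount f t U < 3 * t), om f t U) * (1536 * k) := by
        rw [Finset.sum_add_distrib, ← Finset.mul_sum, ← Finset.sum_filter, ← Finset.sum_mul]
        rfl
    _ ≤ (544 * k + 1) * Z f t + 1 / 256 * Z f t * (1536 * k) := by gcongr
    _ ≤ 608 * k * Z f t := by nlinarith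

/-- An intermediate time at which the expectation lies strictly between the two phases. -/
lemma exists_time (hf : Good k f) (hk : 10 ≤ k) : ∃ t, 16 * k * NN ≤ t ∧ t ≤ 32 * k * NN ∧
    640 * (k : ℝ) ≤ EE f t ∧ EE f t ≤ 672 * k := by
  classical
  have hkR : (10 : ℝ) ≤ k := by exact_mod_cast hk
  have hN := NN_pos
  have hNge := NN_geR
  have hex : ∃ t, 16 * k * NN ≤ t ∧ EE f t ≤ 672 * k := by
    refine ⟨32 * k * NN, by gcongr; norm_num, ?_⟩
    have := EE_end hf hk
    linarith
  have hspec := Nat.find_spec hex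
  set t := Nat.find hex with ht
  have hle : t ≤ 32 * k * NN := by
    apply Nat.find_min' hex
    refine ⟨by gcongr; norm_num, ?_⟩
    have := EE_end hf hk
    linarith
  refine ⟨t, hspec.1, hle, ?_, hspec.2⟩
  have hne : t ≠ 16 * k * NN := by
    intro h
    have h1 := hspec.2
    rw [h] at h1
    have := EE_start hf hk
    linarith
  obtain ⟨q, hq⟩ : ∃ q, t = q + 1 := ⟨t - 1, by have := hspec.1; omega⟩
  have hqlt : q < Nat.find hex := by rw [← ht, hq]; exact Nat.lt_succ_self q
  have hmin := Nat.find_min hex hqlt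
  have hq0 : 16 * k * NN ≤ q := by have := hspec.1; omega
  have hEq : 672 * (k : ℝ) < EE f q := by
    by_contra hcon
    exact hmin ⟨hq0, not_lt.1 hcon⟩
  have hstep := EE_step f q
  rw [← hq] at hstep
  have hup : EE f q ≤ 2112 * k := by
    unfold EE
    rw [div_le_iff₀ (Z_pos f q)]
    unfold Z
    rw [Finset.mul_sum]
    refine Finset.sum_le_sum fun U _ => ?_
    rw [mul_comm]
    refine mul_le_mul_of_nonneg_right ?_ (om_pos _ _ _).le
    have h1 := gg_le f q U
    push_cast at h1
    have h2 : (q : ℝ) ≤ 32 * k * NN := by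
      have : q ≤ 32 * k * NN := by omega
      exact_mod_cast this
    have h3 : 64 / (NN : ℝ) * q ≤ 64 / NN * (32 * k * NN) := by gcongr
    have h4 : 64 / (NN : ℝ) * (32 * k * NN) = 2048 * k := by field_simp; ring
    linarith
  have hsmall : EE f q / (NN + 1) ≤ 32 * k := by
    rw [div_le_iff₀ (by positivity)]
    nlinarith
  linarith

end Pool.Agent.Work.MP_fd33cb_co
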