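import Mathlib
import Pool.Agent.Work.MP_fd33cb_co.Mass

/-!
# Modes far from the average size
-/

set_option autoImplicit false

namespace Pool.Agent.Work.MP_fd33cb_co

open Finset Polynomial

section Transport

lemma isDominating_comap {V W : Type*} (e : V ≃ W) (G : SimpleGraph V) (S : Finset V) :
    IsDominating (G.comap e.symm) (S.map e.toEmbedding) ↔ IsDominating G S := by
  unfold IsDominating
  constructor
  · intro hS v
    rcases hS (e v) with h1 | ⟨u, hu, hadj⟩
    · left
      simpa using h1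
    · right
      rw [Finset.mem_map] at hu
      obtain ⟨u', hu', rfl⟩ := hu
      exact ⟨u', hu', by simpa using hadj⟩
  · intro hS w
    rcases hS (e.symm w) with h1 | ⟨u, hu, hadj⟩
    · left
      rw [Finset.mem_map]
      exact ⟨_, h1, by simp⟩
    · right
      refine ⟨e u, ?_, by simpa using hadj⟩
      rw [Finset.mem_map]
      exact ⟨u, hu, rfl⟩

variable {V W : Type*} [Fintype V] [Fintype W]

lemma domCount_comap (e : V ≃ W) (G : SimpleGraph V) (i : ℕ) :
    domCount (G.comap e.symm) i = domCount G i := by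
  classical
  unfold domCount
  symm
  refine Finset.card_bij (fun S _ => S.map e.toEmbedding) ?_ ?_ ?_
  · intro S hS
    rw [Finset.mem_filter] at hS ⊢
    exact ⟨Finset.mem_univ _, by rw [Finset.card_map]; exact hS.2.1,
      (isDominating_comap e G S).2 hS.2.2⟩
  · intro S _ S' _ h
    exact Finset.map_injective _ h
  · intro S hS
    rw [Finset.mem_filter] at hS
    have hmap : (S.map e.symm.toEmbedding).map e.toEmbedding = S := by
      ext x; simp
    refine ⟨S.map e.symm.toEmbedding, ?_, hmap⟩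
    rw [Finset.mem_filter]
    refine ⟨Finset.mem_univ _, by rw [Finset.card_map]; exact hS.2.1, ?_⟩
    rw [← isDominating_comap e G, hmap]
    exact hS.2.2

lemma domPoly_comap (e : V ≃ W) (G : SimpleGraph V) :
    domPoly (G.comap e.symm) = domPoly G := by
  unfold domPoly
  rw [Fintype.card_congr e]
  simp only [domCount_comap]

lemma avd_comap (e : V ≃ W) (G : SimpleGraph V) : avd (G.comap e.symm) = avd G := by
  unfold avd
  rw [domPoly_comap]

lemma isMode_comap (e : V ≃ W) (G : SimpleGraph V) (m : ℕ) :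
    IsMode (G.comap e.symm) m ↔ IsMode G m := by
  unfold IsMode
  simp only [domCount_comap, Fintype.card_congr e]

end Transport

lemma eval_one_domPoly {V : Type*} [Fintype V] (G : SimpleGraph V) :
    (domPoly G).eval 1 = ∑ i ∈ range (Fintype.card V + 1), (domCount G i : ℝ) := by
  unfold domPoly
  rw [Polynomial.eval_finsetSum]
  simp

lemma eval_one_le_of_isMode {V : Type*} [Fintype V] (G : SimpleGraph V) {m : ℕ}
    (hm : IsMode G m) :
    (domPoly G).eval 1 ≤ (Fintype.card V + 1) * (domPoly G).coeff m := by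
  rw [eval_one_domPoly, coeff_domPoly]
  refine (Finset.sum_le_card_nsmul _ _ (domCount G m : ℝ) ?_).trans (le_of_eq ?_)
  · intro i _
    exact_mod_cast hm.2 i
  · rw [Finset.card_range, nsmul_eq_mul]
    push_cast; ring

lemma eval_one_piece_eq {t s u a : ℕ} (ha : a ≤ t) :
    (piece 128 t s u a).eval 1 = (NN : ℝ) ^ t * Real.exp (bb * a) := by
  have hN := NN_pos
  rw [eval_one_piece, ← NN_cast]
  have h1 : Real.exp (bb * a) = (1 + 1 / (NN : ℝ)) ^ a := by
    rw [← exp_bb, ← Real.exp_nat_mul, mul_comm]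
  have h2 : (2 : ℝ) ^ 128 = NN * (1 + 1 / NN) := by
    have h3 := NN_cast
    have h4 : (2 : ℝ) ^ 128 = NN + 1 := by rw [h3]; ring
    rw [h4]; field_simp
  have h5 : (NN : ℝ) ^ t = NN ^ a * NN ^ (t - a) := by rw [← pow_add]; congr 1; omega
  rw [h1, h2, mul_pow, h5]
  ring

section

variable {k : ℕ} {f : ℕ → Fin 128 → Fin (32 * k)}

lemma eval_one_gGraph (t s : ℕ) :
    (domPoly (gGraph f t s)).eval 1 = (NN : ℝ) ^ t * Z f t := by
  rw [domPoly_gGraph, Polynomial.eval_finsetSum, Z, Finset.mul_sum]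
  refine Finset.sum_congr rfl fun U _ => ?_
  rw [eval_one_piece_eq (satCount_le f t U)]
  rfl

lemma deriv_gGraph (t s : ℕ) :
    (derivative (domPoly (gGraph f t s))).eval 1 =
      (NN : ℝ) ^ t * (Z f t * (s + 64 * t + EE f t)) := by
  have hN := NN_pos
  have hZ := Z_pos f t
  rw [domPoly_gGraph, Polynomial.derivative_sum, Polynomial.eval_finsetSum]
  have h1 : Z f t * (s + 64 * t + EE f t) =
      ∑ U ∈ conf (32 * k), om f t U * (s + 64 * t + gg f t U) := by
    simp only [mul_add]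
    rw [Finset.sum_add_distrib, Finset.sum_add_distrib, ← Finset.sum_mul, ← Finset.sum_mul]
    unfold EE
    rw [mul_div_cancel₀ _ hZ.ne']
    rfl
  rw [h1, Finset.mul_sum]
  refine Finset.sum_congr rfl fun U _ => ?_
  have ha := satCount_le f t U
  rw [derivative_piece 128 t s (#U) (satCount f t U) (by norm_num),
    eval_one_piece_eq ha, mul_assoc]
  unfold om
  congr 2
  unfold gg
  have h2 : ((128 : ℕ) * 2 ^ (128 - 1) / (2 ^ 128 - 1) : ℝ) = 64 + 64 / NN := by
    rw [← NN_cast]
    have h3 : (2 : ℝ) ^ 128 = NN + 1 := by rw [NN_cast]; ring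
    have h4 : (128 : ℝ) * 2 ^ (128 - 1) = 64 * (NN + 1) := by rw [← h3]; norm_num
    push_cast
    rw [h4]
    field_simp
  rw [h2, Nat.cast_sub ha]
  push_cast
  ring

lemma avd_gGraph (t s : ℕ) : avd (gGraph f t s) = s + 64 * t + EE f t := by
  unfold avd
  have hN := NN_pos
  have hZ := Z_pos f t
  rw [deriv_gGraph, eval_one_gGraph]
  field_simp

/-- The tilt. -/
noncomputable def tau : ℝ := 1 / (64 * NN)

lemma tau_pos : 0 < tau := by unfold tau; have := NN_pos; positivity

lemma tau_le : tau ≤ 1 / 1000000 := by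
  unfold tau
  have h1 := NN_geR
  have h2 := NN_pos
  apply one_div_le_one_div_of_le (by norm_num)
  linarith

lemma kap_eq : kap 128 = 64 / NN := by
  unfold kap
  rw [← NN_cast]
  norm_num

lemma NN_mul_tau : (NN : ℝ) * tau = 1 / 64 := by
  unfold tau
  have := NN_pos
  field_simp

lemma coeff_dense (hk : 1 ≤ k) {t s m : ℕ} (h1 : t ≤ 32 * k * NN)
    (hm : 576 * (k : ℝ) ≤ m - s - 64 * t) (U : Finset (Option (Fin (32 * k))))
    (hU : 3 * t ≤ 4 * satCount f t U) :
    (piece 128 t s #U (satCount f t U)).coeff m ≤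
      (piece 128 t s #U (satCount f t U)).eval 1 * Real.exp (-(15 * k * tau)) := by
  have hN := NN_pos
  have hτ := tau_pos
  have hτ2 := tau_le
  have hkR : (1 : ℝ) ≤ k := by exact_mod_cast hk
  refine (coeff_piece_upper (r := 128) (by norm_num) (satCount_le f t U) hτ
    (by linarith)).trans ?_
  have hval : 0 ≤ (piece 128 t s #U (satCount f t U)).eval 1 := by
    rw [eval_one_piece_eq (satCount_le f t U)]; positivity
  apply mul_le_mul_of_nonneg_left _ hval
  apply Real.exp_le_exp.2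
  rw [kap_eq]
  have hu : (#U : ℝ) ≤ 32 * k + 1 := by exact_mod_cast card_le_succ U
  have hU' : (3 * t : ℝ) ≤ 4 * satCount f t U := by exact_mod_cast hU
  have ht' : (t : ℝ) ≤ 32 * k * NN := by exact_mod_cast h1
  have hlog : tau - tau ^ 2 ≤ Real.log (1 + tau) := by
    have := Real.one_sub_inv_le_log_of_pos (x := 1 + tau) (by linarith)
    refine le_trans ?_ this
    have hne : (1 + tau) ≠ 0 := by positivity
    have e : 1 - (1 + tau)⁻¹ = tau / (1 + tau) := by field_simp; ring
    rw [e, le_div_iff₀ (by positivity)]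
    nlinarith [pow_pos hτ 3]
  push_cast
  have e1 : (128 : ℝ) * t / 2 = 64 * t := by ring
  rw [e1]
  set w : ℝ := (m : ℝ) - s - 64 * t - #U with hw
  have hw1 : 544 * (k : ℝ) - 1 ≤ w := by linarith
  have hw0 : 0 ≤ 544 * (k : ℝ) - 1 := by linarith
  have hττ : 0 ≤ tau - tau ^ 2 := by nlinarith
  have p1 : (544 * (k : ℝ) - 1) * (tau - tau ^ 2) ≤ w * Real.log (1 + tau) :=
    mul_le_mul hw1 hlog hττ (hw0.trans hw1)
  have p2 : (128 : ℝ) * t * (tau ^ 2 / 8) ≤ 8 * k * tau := by
    calc (128 : ℝ) * t * (tau ^ 2 / 8) = 16 * t * tau * tau := by ring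
      _ ≤ 16 * (32 * k * NN) * tau * tau := by gcongr
      _ = 512 * k * (NN * tau) * tau := by ring
      _ = 8 * k * tau := by rw [NN_mul_tau]; ring
  have p3 : 64 / (NN : ℝ) * tau * (t - satCount f t U) ≤ 512 * k * tau := by
    calc 64 / (NN : ℝ) * tau * (t - satCount f t U) ≤ 64 / (NN : ℝ) * tau * (32 * k * NN / 4) := by
          gcongr; linarith
      _ = 512 * k * tau := by field_simp; ring
  nlinarith [mul_pos hτ hτ, mul_le_mul_of_nonneg_left hτ2 hτ.le]

lemma coeff_sparse {t s m : ℕ} (h0 : 16 * k * NN ≤ t) (h1 : t ≤ 32 * k * NN)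
    (hm : (m : ℝ) - s - 64 * t ≤ 736 * k) (U : Finset (Option (Fin (32 * k))))
    (hU : 4 * satCount f t U ≤ t) :
    (piece 128 t s #U (satCount f t U)).coeff m ≤
      (piece 128 t s #U (satCount f t U)).eval 1 * Real.exp (-(15 * k * tau)) := by
  have hN := NN_pos
  have hτ := tau_pos
  have hτ2 := tau_le
  have hk0 : (0 : ℝ) ≤ k := by positivity
  refine (coeff_piece_lower (r := 128) (by norm_num) (satCount_le f t U) hτ
    (by linarith)).trans ?_
  have hval : 0 ≤ (piece 128 t s #U (satCount f t U)).eval 1 := by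
    rw [eval_one_piece_eq (satCount_le f t U)]; positivity
  apply mul_le_mul_of_nonneg_left _ hval
  apply Real.exp_le_exp.2
  rw [kap_eq]
  have hu : (0 : ℝ) ≤ #U := by positivity
  have hU' : (4 * satCount f t U : ℝ) ≤ t := by exact_mod_cast hU
  have ht' : (t : ℝ) ≤ 32 * k * NN := by exact_mod_cast h1
  have ht0 : 16 * k * NN ≤ (t : ℝ) := by exact_mod_cast h0
  have hlog : -Real.log (1 - tau) ≤ tau + 2 * tau ^ 2 := by
    have := Real.one_sub_inv_le_log_of_pos (x := 1 - tau) (by linarith)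
    have hpos : (0 : ℝ) < 1 - tau := by linarith
    have hne : (1 - tau) ≠ 0 := hpos.ne'
    have e : 1 - (1 - tau)⁻¹ = -(tau / (1 - tau)) := by field_simp; ring
    rw [e] at this
    have h3 : tau / (1 - tau) ≤ tau + 2 * tau ^ 2 := by
      rw [div_le_iff₀ hpos]
      nlinarith [pow_pos hτ 2, pow_pos hτ 3]
    linarith
  have hlog0 : 0 ≤ -Real.log (1 - tau) := by
    have := Real.log_nonpos (x := 1 - tau) (by linarith) (by linarith)
    linarith
  push_cast
  have e1 : (128 : ℝ) * t / 2 = 64 * t := by ring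
  rw [e1]
  set w : ℝ := (m : ℝ) - s - 64 * t - #U with hw
  have hw1 : w ≤ 736 * (k : ℝ) := by linarith
  have p1 : w * (-Real.log (1 - tau)) ≤ 736 * k * (tau + 2 * tau ^ 2) := by
    calc w * (-Real.log (1 - tau)) ≤ 736 * (k : ℝ) * (-Real.log (1 - tau)) := by gcongr
      _ ≤ _ := by gcongr
  have p2 : (128 : ℝ) * t * (tau ^ 2 / 4) ≤ 16 * k * tau := by
    calc (128 : ℝ) * t * (tau ^ 2 / 4) = 32 * t * tau * tau := by ring
      _ ≤ 32 * (32 * k * NN) * tau * tau := by gcongr
      _ = 1024 * k * (NN * tau) * tau := by ring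
      _ = 16 * k * tau := by rw [NN_mul_tau]; ring
  have p3 : 768 * k * tau ≤ 64 / (NN : ℝ) * tau * (t - satCount f t U) := by
    calc 768 * k * tau = 64 / (NN : ℝ) * tau * (3 / 4 * (16 * k * NN)) := by field_simp; ring
      _ ≤ 64 / (NN : ℝ) * tau * (t - satCount f t U) := by
          gcongr; linarith
  have p4 : 736 * (k : ℝ) * (2 * tau ^ 2) ≤ k * tau := by
    have : 0 ≤ (k : ℝ) * tau := by positivity
    nlinarith
  nlinarith

/-- No mode in the forbidden window. -/
lemma mode_excluded (hf : Good k f) (hk : 1 ≤ k) {t s m : ℕ} (h0 : 16 * k * NN ≤ t)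
    (h1 : t ≤ 32 * k * NN) (hm : IsMode (gGraph f t s) m)
    (hlo : 576 * (k : ℝ) ≤ m - s - 64 * t) (hhi : (m : ℝ) - s - 64 * t ≤ 736 * k) :
    1 ≤ (Fintype.card (Vtx (32 * k) t 128 s) + 1) *
      (Real.exp (-(15 * k * tau)) + 2 * (1 / 2) ^ k) := by
  classical
  have hN := NN_pos
  have hZ := Z_pos f t
  have hT := eval_one_le_of_isMode _ hm
  rw [eval_one_gGraph] at hT
  set δ := Real.exp (-(15 * k * tau)) with hδ
  have hcoef : (domPoly (gGraph f t s)).coeff m ≤
      (NN : ℝ) ^ t * Z f t * (δ + 2 * (1 / 2) ^ k) := by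
    rw [domPoly_gGraph, Polynomial.finsetSum_coeff]
    have hterm : ∀ U ∈ conf (32 * k), (piece 128 t s #U (satCount f t U)).coeff m ≤
        (NN : ℝ) ^ t * om f t U * δ + (if t < 4 * satCount f t U ∧ 4 * satCount f t U < 3 * t then
          (NN : ℝ) ^ t * om f t U else 0) := by
      intro U _
      have ho := om_pos f t U
      have hv : (piece 128 t s #U (satCount f t U)).eval 1 = (NN : ℝ) ^ t * om f t U :=
        eval_one_piece_eq (satCount_le f t U)
      split_ifs with hc
      · have h3 := coeff_le_of_nonneg (nonneg_piece 128 t s #U (satCount f t U))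
          (x := 1) one_pos m
        rw [one_pow, mul_one, hv] at h3
        have : 0 ≤ (NN : ℝ) ^ t * om f t U * δ := by positivity
        linarith
      · rw [add_zero, ← hv]
        by_cases hU : 4 * satCount f t U ≤ t
        · exact coeff_sparse h0 h1 hhi U hU
        · refine coeff_dense hk h1 hlo U ?_
          by_contra hcon
          exact hc ⟨not_le.1 hU, not_le.1 hcon⟩
    have hmid := mass_mid hf h0 h1
    calc ∑ U ∈ (univ.filter fun U : Finset (Option (Fin (32 * k))) => U.Nonempty),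
          (piece 128 t s #U (satCount f t U)).coeff m
        ≤ ∑ U ∈ conf (32 * k), ((NN : ℝ) ^ t * om f t U * δ +
          (if t < 4 * satCount f t U ∧ 4 * satCount f t U < 3 * t then
          (NN : ℝ) ^ t * om f t U else 0)) := Finset.sum_le_sum hterm
      _ = (NN : ℝ) ^ t * Z f t * δ + (NN : ℝ) ^ t * ∑ U ∈ (conf (32 * k)).filter
          (fun U => t < 4 * satCount f t U ∧ 4 * satCount f t U < 3 * t), om f t U := by
          rw [Finset.sum_add_distrib, ← Finset.sum_filter, ← Finset.sum_mul, ← Finset.mul_sum,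
            ← Finset.mul_sum]
          rfl
      _ ≤ (NN : ℝ) ^ t * Z f t * δ + (NN : ℝ) ^ t * (2 * (1 / 2) ^ k * Z f t) := by gcongr
      _ = _ := by ring
  have hpos : 0 < (NN : ℝ) ^ t * Z f t := by positivity
  have hfin : (NN : ℝ) ^ t * Z f t * 1 ≤ (NN : ℝ) ^ t * Z f t *
      ((Fintype.card (Vtx (32 * k) t 128 s) + 1) * (δ + 2 * (1 / 2) ^ k)) := by
    rw [mul_one]
    refine hT.trans ?_
    calc _ ≤ (Fintype.card (Vtx (32 * k) t 128 s) + 1 : ℝ) *
          ((NN : ℝ) ^ t * Z f t * (δ + 2 * (1 / 2) ^ k)) := by gcongr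
      _ = _ := by ring
  exact le_of_mul_le_mul_left hfin hpos

end

/-- The number of vertices per unit of `k`. -/
def QQ : ℕ := 4096 * (NN + 1)

lemma card_Vtx (h t r s : ℕ) : Fintype.card (Vtx h t r s) = h + 1 + (t * r + s) := by
  simp [Vtx]

lemma eventually_small : ∃ K : ℕ, ∀ k ≥ K,
    ((QQ * (k + 1) + 1 : ℕ) : ℝ) * (Real.exp (-(15 * k * tau)) + 2 * (1 / 2) ^ k) < 1 := by
  have hτ := tau_pos
  set ρ := Real.exp (-(15 * tau)) with hρ
  have hρ0 : 0 < ρ := Real.exp_pos _
  have hρ1 : ρ < 1 := by rw [hρ, Real.exp_lt_one_iff]; linarith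
  have hexp : ∀ k : ℕ, Real.exp (-(15 * k * tau)) = ρ ^ k := by
    intro k
    rw [hρ, ← Real.exp_nat_mul]; congr 1; ring
  have t1 : Filter.Tendsto (fun k : ℕ => (k : ℝ) * ρ ^ k) Filter.atTop (nhds 0) :=
    tendsto_self_mul_const_pow_of_lt_one hρ0.le hρ1
  have t2 : Filter.Tendsto (fun k : ℕ => ρ ^ k) Filter.atTop (nhds 0) :=
    tendsto_pow_atTop_nhds_zero_of_lt_one hρ0.le hρ1
  have t3 : Filter.Tendsto (fun k : ℕ => (k : ℝ) * (1 / 2 : ℝ) ^ k) Filter.atTop (nhds 0) :=
    tendsto_self_mul_const_pow_of_lt_one (by norm_num) (by norm_num)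
  have t4 : Filter.Tendsto (fun k : ℕ => (1 / 2 : ℝ) ^ k) Filter.atTop (nhds 0) :=
    tendsto_pow_atTop_nhds_zero_of_lt_one (by norm_num) (by norm_num)
  have t5 : Filter.Tendsto (fun k : ℕ => ((QQ * (k + 1) + 1 : ℕ) : ℝ) *
      (Real.exp (-(15 * k * tau)) + 2 * (1 / 2) ^ k)) Filter.atTop (nhds 0) := by
    have : Filter.Tendsto (fun k : ℕ => (QQ : ℝ) * ((k : ℝ) * ρ ^ k) + (QQ + 1 : ℝ) * ρ ^ k +
        2 * QQ * ((k : ℝ) * (1 / 2 : ℝ) ^ k) + 2 * (QQ + 1) * (1 / 2 : ℝ) ^ k)
        Filter.atTop (nhds ((QQ : ℝ) * 0 + (QQ + 1 : ℝ) * 0 + 2 * QQ * 0 + 2 * (QQ + 1) * 0)) :=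
      (((t1.const_mul _).add (t2.const_mul _)).add (t3.const_mul _)).add (t4.const_mul _)
    have h0 : ((QQ : ℝ) * 0 + (QQ + 1 : ℝ) * 0 + 2 * QQ * 0 + 2 * (QQ + 1) * 0) = 0 := by ring
    rw [h0] at this
    refine this.congr fun k => ?_
    rw [hexp]
    push_cast
    ring
  obtain ⟨K, hK⟩ := Filter.eventually_atTop.1 (t5.eventually (gt_mem_nhds (zero_lt_one)))
  exact ⟨K, hK⟩

/-- For every large `n` some graph on `n` vertices has all its modes at distance at least
`32 n / QQ` from the average size of a dominating set. -/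
theorem exists_graph : ∃ n₀ : ℕ, ∀ n ≥ n₀, ∃ G : SimpleGraph (Fin n), ∀ m, IsMode G m →
    32 / QQ * (n : ℝ) ≤ |(m : ℝ) - avd G| := by
  obtain ⟨K, hK⟩ := eventually_small
  have hQpos : 0 < QQ := by unfold QQ; positivity
  refine ⟨QQ * (K + 10), fun n hn => ?_⟩
  set k := n / QQ with hk
  have hkK : K + 10 ≤ k := by
    rw [hk, Nat.le_div_iff_mul_le hQpos, mul_comm]; exact hn
  have hnlo : QQ * k ≤ n := Nat.mul_div_le n QQ
  have hnhi : n < QQ * (k + 1) := Nat.lt_mul_div_succ n hQpos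
  obtain ⟨f, hf⟩ := exists_family k NN (by omega) (by have := NN_ge; omega)
  obtain ⟨t, ht0, ht1, hE0, hE1⟩ := exists_time (k := k) (f := f) hf (by omega)
  have hsize : 32 * k + 1 + t * 128 ≤ n := by
    refine le_trans ?_ hnlo
    unfold QQ
    have e1 : t * 128 ≤ 32 * k * NN * 128 := Nat.mul_le_mul_right _ ht1
    have e2 : 4096 * (NN + 1) * k = 32 * k * NN * 128 + 4096 * k := by ring
    omega
  set s := n - (32 * k + 1 + t * 128) with hs
  have hcard : Fintype.card (Vtx (32 * k) t 128 s) = n := by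
    rw [card_Vtx]; omega
  set G := gGraph f t s with hG
  let e : Vtx (32 * k) t 128 s ≃ Fin n := Fintype.equivFinOfCardEq hcard
  refine ⟨G.comap e.symm, fun m hm => ?_⟩
  rw [isMode_comap] at hm
  rw [avd_comap, hG, avd_gGraph]
  have hk1 : (1 : ℝ) ≤ k := by exact_mod_cast (by omega : 1 ≤ k)
  have hfar : ¬ (576 * (k : ℝ) ≤ m - s - 64 * t ∧ (m : ℝ) - s - 64 * t ≤ 736 * k) := by
    rintro ⟨h1, h2⟩
    have h3 := mode_excluded hf (by omega) ht0 ht1 hm h1 h2
    rw [hcard] at h3
    have h4 := hK k (by omega)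
    have h5 : ((n : ℝ) + 1) ≤ ((QQ * (k + 1) + 1 : ℕ) : ℝ) := by
      have : n + 1 ≤ QQ * (k + 1) + 1 := by omega
      exact_mod_cast this
    have h6 : 0 ≤ Real.exp (-(15 * k * tau)) + 2 * (1 / 2) ^ k := by positivity
    have h7 := mul_le_mul_of_nonneg_right h5 h6
    linarith
  have hdev : 64 * (k : ℝ) ≤ |(m : ℝ) - (s + 64 * t + EE f t)| := by
    by_cases h1 : 576 * (k : ℝ) ≤ m - s - 64 * t
    · have h2 : 736 * (k : ℝ) < m - s - 64 * t := by
        by_contra hcon
        exact hfar ⟨h1, not_lt.1 hcon⟩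
      rw [le_abs]
      left; linarith
    · rw [le_abs]
      right; push Not at h1; linarith
  refine le_trans ?_ hdev
  have hQR : (0 : ℝ) < QQ := by exact_mod_cast hQpos
  have hnR : (n : ℝ) ≤ QQ * (k + 1) := by exact_mod_cast hnhi.le
  rw [div_mul_eq_mul_div, div_le_iff₀ hQR]
  nlinarith

/-- The trivial upper bound. -/
theorem dev_le {n : ℕ} (G : SimpleGraph (Fin n)) (m : ℕ) (hm : IsMode G m) :
    |(m : ℝ) - avd G| ≤ n := by
  have hmn : (m : ℝ) ≤ n := by
    have := hm.1
    rw [Fintype.card_fin] at this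
    exact_mod_cast this
  have hD : (derivative (domPoly G)).eval 1 =
      ∑ i ∈ range (Fintype.card (Fin n) + 1), (domCount G i : ℝ) * i := by
    unfold domPoly
    rw [Polynomial.derivative_sum, Polynomial.eval_finsetSum]
    refine Finset.sum_congr rfl fun i _ => ?_
    rw [Polynomial.derivative_C_mul, Polynomial.derivative_X_pow]
    simp
  have hD0 : 0 ≤ (derivative (domPoly G)).eval 1 := by rw [hD]; positivity
  have hP0 : 0 ≤ (domPoly G).eval 1 := by rw [eval_one_domPoly]; positivity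
  have hle : (derivative (domPoly G)).eval 1 ≤ n * (domPoly G).eval 1 := by
    rw [hD, eval_one_domPoly, Finset.mul_sum]
    refine Finset.sum_le_sum fun i hi => ?_
    rw [Finset.mem_range, Fintype.card_fin] at hi
    have : (i : ℝ) ≤ n := by exact_mod_cast Nat.lt_succ_iff.1 hi
    rw [mul_comm]
    gcongr
  have ha0 : 0 ≤ avd G := div_nonneg hD0 hP0
  have ha1 : avd G ≤ n := by
    unfold avd
    exact div_le_of_le_mul₀ hP0 (by positivity) hle
  have hm0 : (0 : ℝ) ≤ m := by positivity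
  rw [abs_le]
  constructor <;> linarith

end Pool.Agent.Work.MP_fd33cb_co
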